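import Pool.Agent.Lib.DL.Spec

/-!
# Semilinearity of the derivation for inertia elements normalising `I`
-/

set_option autoImplicit false

open scoped Pointwise

noncomputable section

namespace Pool.Agent.DL

open Pool.Agent.MuZ Pool.Agent.FW
open Pool.Agent.DI (VP MP UP TP)

private theorem tau_eval (τ : Gal(Om/ℚ)) (F : Polynomial Om) (x : Om) :
    (F.map (τ : Om →+* Om)).eval (τ x) = τ (F.eval x) := by
  have h := Polynomial.eval_map_apply (f := (τ : Om →+* Om)) (p := F) x
  exact h

theorem tCj : S_Cj := by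
  intro hCn hDer P p e I S π hG q W r τ hq hq' hW hr hτ hn hD
  have hPr : P.IsPrime := hG.prime
  have h2 : Pl P p := hG.pl
  obtain ⟨-, d2, d3, -, -, -, -, -, -, d10, -⟩ := hDer P p e I S π hG q W hq hq' hW
  have key : ∀ x y : Om, Dr P p I π q W x y → Dr P p I π q W (τ x) (r * τ y) := by
    rintro x y ⟨F, hF, hx, hy⟩
    have hG' : Cf P I (F.map (τ : Om →+* Om)) := by
      intro i
      rw [Polynomial.coeff_map]
      refine ⟨DI.VP.inertia_vp hτ (hF i).1, ?_⟩
      intro σ hσ
      have h1 := (hF i).2 _ (hn σ hσ)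
      have h3 : τ ((τ⁻¹ * σ * τ) (F.coeff i)) = σ (τ (F.coeff i)) := by
        rw [AlgEquiv.mul_apply, AlgEquiv.mul_apply]
        exact τ.apply_symm_apply _
      rw [h1] at h3
      exact h3.symm
    have h4 := d10 _ _ _ hG' hD
    rw [tau_eval, hx, Polynomial.derivative_map, tau_eval] at h4
    refine d2 _ _ _ h4 ?_
    have h5 : r * τ y - τ (F.derivative.eval π) * (r * τ W) = r * τ (y - F.derivative.eval π * W) := by
      rw [map_sub, map_mul]
      ring
    rw [h5]
    exact GE.mul_left h2 hr (GE.inertia h2 hτ hy)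
  refine ⟨key, ?_⟩
  rintro x y ⟨u1, v1, f1, D1⟩
  have h6 := key _ _ D1
  have h7 : r * τ (x * y) = τ x * (r * τ y) := by
    rw [map_mul]
    ring
  rw [h7] at h6
  have h8 : UP P (τ x) := by
    have h9 := DI.VP.inertia hτ u1.1
    exact DI.UP.congr u1 h9
  exact ⟨h8, DI.VP.mul hr (DI.VP.inertia_vp hτ v1), (d3 _ _ h6).2.2, h6⟩

end Pool.Agent.DL
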