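import Pool.Agent.Lib.DL.Spec

/-!
# The local step of DR and DM, abstract part: module Cn

The `P`-integral constants form a ring, the polynomials over them a ring which is stable under derivation
and composition.
-/

set_option autoImplicit false

open scoped Pointwise

noncomputable section

namespace Pool.Agent.DL

open Pool.Agent.MuZ Pool.Agent.FW
open Pool.Agent.DI (VP MP UP TP)

private theorem Cn_int {P : Ideal ZZ} [P.IsPrime] {I : Subgroup Gal(Om/ℚ)} (a : ℤ) : Cn P I (a : Om) :=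
  ⟨DI.VP.int a, fun σ _ => map_intCast σ a⟩

private theorem Cn_zero {P : Ideal ZZ} [P.IsPrime] {I : Subgroup Gal(Om/ℚ)} : Cn P I 0 :=
  ⟨DI.VP.zero, fun σ _ => map_zero σ⟩

private theorem Cn_one {P : Ideal ZZ} [P.IsPrime] {I : Subgroup Gal(Om/ℚ)} : Cn P I 1 :=
  ⟨DI.VP.one, fun σ _ => map_one σ⟩

private theorem Cn_add {P : Ideal ZZ} [P.IsPrime] {I : Subgroup Gal(Om/ℚ)} {x y : Om} (hx : Cn P I x)
    (hy : Cn P I y) : Cn P I (x + y) :=
  ⟨hx.1.add hy.1, fun σ hσ => by rw [map_add, hx.2 σ hσ, hy.2 σ hσ]⟩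

private theorem Cn_sub {P : Ideal ZZ} [P.IsPrime] {I : Subgroup Gal(Om/ℚ)} {x y : Om} (hx : Cn P I x)
    (hy : Cn P I y) : Cn P I (x - y) :=
  ⟨hx.1.sub hy.1, fun σ hσ => by rw [map_sub, hx.2 σ hσ, hy.2 σ hσ]⟩

private theorem Cn_mul {P : Ideal ZZ} [P.IsPrime] {I : Subgroup Gal(Om/ℚ)} {x y : Om} (hx : Cn P I x)
    (hy : Cn P I y) : Cn P I (x * y) :=
  ⟨hx.1.mul hy.1, fun σ hσ => by rw [map_mul, hx.2 σ hσ, hy.2 σ hσ]⟩

private theorem Cn_neg {P : Ideal ZZ} {I : Subgroup Gal(Om/ℚ)} {x : Om} (hx : Cn P I x) : Cn P I (-x) :=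
  ⟨hx.1.neg, fun σ hσ => by rw [map_neg, hx.2 σ hσ]⟩

private theorem Cn_pow {P : Ideal ZZ} [P.IsPrime] {I : Subgroup Gal(Om/ℚ)} {x : Om} (n : ℕ)
    (hx : Cn P I x) : Cn P I (x ^ n) :=
  ⟨hx.1.pow n, fun σ hσ => by rw [map_pow, hx.2 σ hσ]⟩

private theorem Cn_sum {P : Ideal ZZ} [P.IsPrime] {I : Subgroup Gal(Om/ℚ)} {ι : Type*} (s : Finset ι)
    (g : ι → Om) (h : ∀ i ∈ s, Cn P I (g i)) : Cn P I (∑ i ∈ s, g i) :=
  ⟨DI.VP.sum s g fun i hi => (h i hi).1, fun σ hσ => by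
    rw [map_sum]
    exact Finset.sum_congr rfl fun i hi => (h i hi).2 σ hσ⟩

private theorem Cf_add {P : Ideal ZZ} [P.IsPrime] {I : Subgroup Gal(Om/ℚ)} {F G : Polynomial Om}
    (hF : Cf P I F) (hG : Cf P I G) : Cf P I (F + G) := fun i => by
  rw [Polynomial.coeff_add]
  exact Cn_add (hF i) (hG i)

private theorem Cf_mul {P : Ideal ZZ} [P.IsPrime] {I : Subgroup Gal(Om/ℚ)} {F G : Polynomial Om}
    (hF : Cf P I F) (hG : Cf P I G) : Cf P I (F * G) := fun i => by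
  rw [Polynomial.coeff_mul]
  exact Cn_sum _ _ fun j _ => Cn_mul (hF _) (hG _)

private theorem Cf_C {P : Ideal ZZ} [P.IsPrime] {I : Subgroup Gal(Om/ℚ)} {x : Om} (hx : Cn P I x) :
    Cf P I (Polynomial.C x) := fun i => by
  rw [Polynomial.coeff_C]
  split
  · exact hx
  · exact Cn_zero

private theorem Cf_pow {P : Ideal ZZ} [P.IsPrime] {I : Subgroup Gal(Om/ℚ)} {F : Polynomial Om} (n : ℕ)
    (hF : Cf P I F) : Cf P I (F ^ n) := by
  induction n with
  | zero =>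
    rw [pow_zero, ← Polynomial.C_1]
    exact Cf_C Cn_one
  | succ n ih => rw [pow_succ]; exact Cf_mul ih hF

private theorem Cf_sum {P : Ideal ZZ} [P.IsPrime] {I : Subgroup Gal(Om/ℚ)} {ι : Type*} (s : Finset ι)
    (g : ι → Polynomial Om) (h : ∀ i ∈ s, Cf P I (g i)) : Cf P I (∑ i ∈ s, g i) := fun j => by
  rw [Polynomial.finsetSum_coeff]
  exact Cn_sum s _ fun i hi => h i hi j

private theorem Cf_comp {P : Ideal ZZ} [P.IsPrime] {I : Subgroup Gal(Om/ℚ)} {F G : Polynomial Om}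
    (hF : Cf P I F) (hG : Cf P I G) : Cf P I (F.comp G) := by
  rw [Polynomial.comp_eq_sum_left, Polynomial.sum_def]
  exact Cf_sum _ _ fun i _ => Cf_mul (Cf_C (hF i)) (Cf_pow i hG)

private theorem Cf_eval {P : Ideal ZZ} [P.IsPrime] {I : Subgroup Gal(Om/ℚ)} {F : Polynomial Om}
    (hF : Cf P I F) (x : Om) (σ : Gal(Om/ℚ)) (hσ : σ ∈ I) : σ (F.eval x) = F.eval (σ x) := by
  rw [Polynomial.eval_eq_sum_range, Polynomial.eval_eq_sum_range, map_sum]
  refine Finset.sum_congr rfl fun i _ => ?_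
  rw [map_mul, map_pow, (hF i).2 σ hσ]

/-- **Cn.** Constants and polynomials over them. -/
theorem tCn : S_Cn := by
  intro P I hP hI
  refine ⟨Cn_int, fun x y hx hy => ⟨Cn_add hx hy, Cn_sub hx hy, Cn_mul hx hy, Cn_neg hx⟩,
    fun x n hx => Cn_pow n hx, fun x hx hu => ⟨hu.inv.1, fun σ hσ => by rw [map_inv₀, hx.2 σ hσ]⟩,
    fun F G hF hG => ⟨Cf_add hF hG, fun i => ?_, Cf_mul hF hG, fun i => ?_, fun i => ?_, Cf_comp hF hG⟩,
    fun x hx => Cf_C hx, fun i => ?_, fun F hF x hx => ?_, fun F hF x σ hσ => Cf_eval hF x σ hσ,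
    fun F π x hF hx σ hσ hπ => ?_⟩
  · rw [Polynomial.coeff_sub]
    exact Cn_sub (hF i) (hG i)
  · rw [Polynomial.coeff_neg]
    exact Cn_neg (hF i)
  · rw [Polynomial.coeff_derivative]
    have h3 : Cn P I ((i : Om) + 1) := by
      have h4 := Cn_int (P := P) (I := I) ((i : ℤ) + 1)
      push_cast at h4
      exact h4
    exact Cn_mul (hF (i + 1)) h3
  · rw [Polynomial.coeff_X]
    split
    · exact Cn_one
    · exact Cn_zero
  · rw [Polynomial.eval_eq_sum_range]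
    exact DI.VP.sum _ _ fun i _ => (hF i).1.mul (hx.pow i)
  · rw [Cf_eval hF x σ hσ, hx σ hσ hπ]

end Pool.Agent.DL
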