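import Pool.Agent.Lib.DL.Spec

/-!
# The derivation modulo `p ^ q` and its rules (S_Der)
-/

set_option autoImplicit false

open scoped Pointwise

noncomputable section

namespace Pool.Agent.DL

open Pool.Agent.MuZ Pool.Agent.FW
open Pool.Agent.DI (VP MP UP TP)

/-- The uniformizer is integral. -/
private theorem Der_piV {P : Ideal ZZ} {p e : ℕ} {I : Subgroup Gal(Om/ℚ)} {S : Finset Om} {π : Om}
    (hG : Gen P p e I S π) : VP P π := by
  have := hG.prime
  refine (vl_nonneg hG.pl hG.ne).1 ?_
  rw [hG.vpi]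
  positivity

theorem tDer : S_Der := by
  intro hPol hCn hMono P p e I S π hG q W hq0 hq hWV
  have hPp : P.IsPrime := hG.prime
  have h2 : Pl P p := hG.pl
  obtain ⟨cInt, -, -, -, pOps, pC, pX, pV, pS, pF⟩ := hCn P I hG.prime hG.ine
  have hπV : VP P π := Der_piV hG
  have hSV : ∀ r ∈ S, VP P r := by
    intro r hr
    obtain ⟨σ, hσ, rfl⟩ := hG.tra r hr
    exact DI.VP.inertia_vp (hG.ine σ hσ) hπV
  have key : ∀ F : Polynomial Om, Cf P I F → F.eval π = 0 → GE P p q (F.derivative.eval π) := by
    intro F hF hF0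
    obtain ⟨y, hy, hy'⟩ := (hPol P hPp S F hSV (fun i => (hF i).1)).1 0 DI.VP.zero
      (by
        intro r hr
        obtain ⟨σ, hσ, rfl⟩ := hG.tra r hr
        rw [← pS F hF π σ hσ, hF0, map_zero])
      π hG.mem
    rw [hy']
    exact GE.mul_right h2 (Or.inr hq) hy
  -- (1)
  have r1 : ∀ x y y' : Om, Dr P p I π q W x y → Dr P p I π q W x y' → GE P p q (y - y') := by
    rintro x y y' ⟨F, hF, hFx, hFy⟩ ⟨G, hGG, hGx, hGy⟩
    have h3 := key (F - G) (pOps F G hF hGG).2.1 (by
      rw [Polynomial.eval_sub, hFx, hGx, sub_self])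
    rw [Polynomial.derivative_sub, Polynomial.eval_sub] at h3
    have h4 := (hFy.sub h2 hGy).add h2 (h3.mul_right h2 hWV)
    have e : y - F.derivative.eval π * W - (y' - G.derivative.eval π * W) +
        (F.derivative.eval π - G.derivative.eval π) * W = y - y' := by ring
    rwa [e] at h4
  -- (2)
  have r2 : ∀ x y y' : Om, Dr P p I π q W x y → GE P p q (y' - y) → Dr P p I π q W x y' := by
    rintro x y y' ⟨F, hF, hFx, hFy⟩ h
    refine ⟨F, hF, hFx, ?_⟩
    have h4 := hFy.add h2 h
    have e : y - F.derivative.eval π * W + (y' - y) = y' - F.derivative.eval π * W := by ring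
    rwa [e] at h4
  -- (3)
  have r3 : ∀ x y : Om, Dr P p I π q W x y → VP P x ∧ VP P y ∧ Fp I π x := by
    rintro x y ⟨F, hF, hFx, hFy⟩
    refine ⟨?_, ?_, ?_⟩
    · rw [← hFx]
      exact pV F hF π hπV
    · have h3 : VP P (y - F.derivative.eval π * W) := (GE.vp_iff h2).1 (hFy.mono hq0)
      have h4 : VP P (F.derivative.eval π * W) :=
        DI.VP.mul (pV _ (pOps F F hF hF).2.2.2.2.1 π hπV) hWV
      have h5 := h3.add h4
      rwa [sub_add_cancel] at h5
    · rw [← hFx]
      exact pF F π π hF (fun σ _ h => h)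
  -- (4)
  have r4 : ∀ a : Om, Cn P I a → Dr P p I π q W a 0 := by
    intro a ha
    refine ⟨Polynomial.C a, pC a ha, Polynomial.eval_C, ?_⟩
    rw [Polynomial.derivative_C, Polynomial.eval_zero, zero_mul, sub_zero]
    exact GE.zero q
  -- (5)
  have r5 : ∀ x y x' y' : Om, Dr P p I π q W x y → Dr P p I π q W x' y' →
      Dr P p I π q W (x + x') (y + y') ∧ Dr P p I π q W (x - x') (y - y') ∧
      Dr P p I π q W (x * x') (x * y' + x' * y) := by
    intro x y x' y' hx hx'
    have v1 := (r3 x y hx).1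
    have v2 := (r3 x' y' hx').1
    obtain ⟨F, hF, hFx, hFy⟩ := hx
    obtain ⟨G, hGG, hGx, hGy⟩ := hx'
    refine ⟨⟨F + G, (pOps F G hF hGG).1, ?_, ?_⟩, ⟨F - G, (pOps F G hF hGG).2.1, ?_, ?_⟩,
      ⟨F * G, (pOps F G hF hGG).2.2.1, ?_, ?_⟩⟩
    · rw [Polynomial.eval_add, hFx, hGx]
    · rw [Polynomial.derivative_add, Polynomial.eval_add]
      have h4 := hFy.add h2 hGy
      have e : y - F.derivative.eval π * W + (y' - G.derivative.eval π * W) =
          y + y' - (F.derivative.eval π + G.derivative.eval π) * W := by ring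
      rwa [e] at h4
    · rw [Polynomial.eval_sub, hFx, hGx]
    · rw [Polynomial.derivative_sub, Polynomial.eval_sub]
      have h4 := hFy.sub h2 hGy
      have e : y - F.derivative.eval π * W - (y' - G.derivative.eval π * W) =
          y - y' - (F.derivative.eval π - G.derivative.eval π) * W := by ring
      rwa [e] at h4
    · rw [Polynomial.eval_mul, hFx, hGx]
    · rw [Polynomial.derivative_mul, Polynomial.eval_add, Polynomial.eval_mul, Polynomial.eval_mul]
      have h4 := (hGy.mul_left h2 v1).add h2 (hFy.mul_left h2 v2)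
      rw [hFx, hGx]
      have e : x * (y' - G.derivative.eval π * W) + x' * (y - F.derivative.eval π * W) =
          x * y' + x' * y - (F.derivative.eval π * x' + x * G.derivative.eval π) * W := by ring
      rwa [e] at h4
  -- (8)
  have r8 : ∀ x : Om, Fp I π x → VP P x → ∃ y : Om, Dr P p I π q W x y := by
    intro x hx hxv
    obtain ⟨F, hF, hFx⟩ := hMono P p e I S π hG x hx hxv
    refine ⟨F.derivative.eval π * W, F, hF, hFx, ?_⟩
    rw [sub_self]
    exact GE.zero q
  refine ⟨r1, r2, r3, r4, r5, ?_, ?_, r8, ?_, ?_, ?_⟩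
  · -- (6)
    intro x y n hxy
    induction n with
    | zero =>
      have h1 : Cn P I (1 : Om) := by
        have := cInt 1
        rwa [Int.cast_one] at this
      have h3 := r4 1 h1
      rw [pow_zero, Nat.cast_zero, zero_mul, zero_mul]
      exact h3
    | succ n ih =>
      have h3 := (r5 _ _ _ _ ih hxy).2.2
      have e : x ^ n * y + x * ((n : Om) * x ^ (n - 1) * y) =
          ((n + 1 : ℕ) : Om) * x ^ (n + 1 - 1) * y := by
        rcases n with _ | m
        · simp
        · rw [Nat.add_sub_cancel, Nat.add_sub_cancel]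
          push_cast
          ring
      rw [e, ← pow_succ] at h3
      exact h3
  · -- (7)
    intro x y hxu hxy
    have hx0 : x ≠ 0 := hxu.ne_zero
    have hfx := (r3 x y hxy).2.2
    obtain ⟨H, hH, hHx⟩ := hMono P p e I S π hG x⁻¹
      (fun σ hσ hσπ => by rw [map_inv₀, hfx σ hσ hσπ]) hxu.inv.1
    have v1 := hxu.inv.1
    obtain ⟨F, hF, hFx, hFy⟩ := hxy
    refine ⟨H, hH, hHx, ?_⟩
    have h1 : Cn P I (1 : Om) := by
      have := cInt 1
      rwa [Int.cast_one] at this
    have h3 := key (H * F - Polynomial.C 1) (pOps _ _ (pOps H F hH hF).2.2.1 (pC 1 h1)).2.1 (by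
      rw [Polynomial.eval_sub, Polynomial.eval_C, Polynomial.eval_mul, hHx, hFx,
        inv_mul_cancel₀ hx0, sub_self])
    rw [Polynomial.derivative_sub, Polynomial.derivative_C, sub_zero, Polynomial.derivative_mul,
      Polynomial.eval_add, Polynomial.eval_mul, Polynomial.eval_mul, hHx, hFx] at h3
    have h4 := (hFy.mul_left h2 (v1.mul v1)).add h2 (h3.mul_left h2 (v1.mul hWV))
    have e : -(y / x ^ 2) - H.derivative.eval π * W =
        -(x⁻¹ * x⁻¹ * (y - F.derivative.eval π * W) +
          x⁻¹ * W * (H.derivative.eval π * x + x⁻¹ * F.derivative.eval π)) := by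
      field_simp
      ring
    rw [e]
    exact h4.neg h2
  · -- (9)
    refine ⟨Polynomial.X, pX, Polynomial.eval_X, ?_⟩
    rw [Polynomial.derivative_X, Polynomial.eval_one, one_mul, sub_self]
    exact GE.zero q
  · -- (10)
    intro G x y hGG hxy
    have v1 := (r3 x y hxy).1
    obtain ⟨F, hF, hFx, hFy⟩ := hxy
    refine ⟨G.comp F, (pOps G F hGG hF).2.2.2.2.2, ?_, ?_⟩
    · rw [Polynomial.eval_comp, hFx]
    · rw [Polynomial.derivative_comp, Polynomial.eval_mul, Polynomial.eval_comp, hFx]
      have v2 : VP P (G.derivative.eval x) := pV _ (pOps G G hGG hGG).2.2.2.2.1 x v1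
      have h4 := hFy.mul_left h2 v2
      have e : G.derivative.eval x * (y - F.derivative.eval π * W) =
          G.derivative.eval x * y - F.derivative.eval π * G.derivative.eval x * W := by ring
      rwa [e] at h4
  · -- (11)
    rintro q' x y hqq ⟨F, hF, hFx, hFy⟩
    exact ⟨F, hF, hFx, hFy.mono hqq⟩

end Pool.Agent.DL
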