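import Pool.Agent.Lib.DL.Spec

/-!
# The local step, abstract part, module Dup: the derivative of `X(2 z)`
-/

set_option autoImplicit false

open scoped Pointwise

noncomputable section

namespace Pool.Agent.DL

open Pool.Agent.MuZ Pool.Agent.FW
open Pool.Agent.DI (VP MP UP TP)

/-- **Dup.** Duplication: the derivative of `X(2 z)`. -/
theorem tDup : S_Dup := by
  intro hCn hDer P p e I S π hG q W0 hq hq' hW0 X W κ b2 b4 b6 b8 X' W' hκ h2 h4 h6 h8 hW hW' hX hcur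
    hdup hder
  have hPp : P.IsPrime := hG.prime
  obtain ⟨c1, -⟩ := hCn P I hG.prime hG.ine
  obtain ⟨-, -, -, d4, d5, d6, d7, -⟩ := hDer P p e I S π hG q W0 hq hq' hW0
  have hW0' : W ≠ 0 := DI.UP.ne_zero hW
  have s0 := fun a : ℤ => d4 (a : Om) (c1 a)
  have s4 := d4 b4 h4
  have s6 := d4 b6 h6
  have s8 := d4 b8 h8
  have s2 := d4 b2 h2
  have t2 := d6 X (κ * W) 2 hX
  have t3 := d6 X (κ * W) 3 hX
  have t4 := d6 X (κ * W) 4 hX
  -- `φ(X)`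
  have e1 := (d5 _ _ _ _ s4 t2).2.2
  have e2 := (d5 _ _ _ _ (d5 _ _ _ _ (s0 2) s6).2.2 hX).2.2
  have e3 := (d5 _ _ _ _ (d5 _ _ _ _ (d5 _ _ _ _ t4 e1).2.1 e2).2.1 s8).2.1
  -- `ψ(X)`
  have f1 := (d5 _ _ _ _ (s0 4) t3).2.2
  have f2 := (d5 _ _ _ _ s2 t2).2.2
  have f3 := (d5 _ _ _ _ (d5 _ _ _ _ (s0 2) s4).2.2 hX).2.2
  have f4 := (d5 _ _ _ _ (d5 _ _ _ _ (d5 _ _ _ _ f1 f2).1 f3).1 s6).1
  have hψ : Dr P p I π q W0 (W ^ 2) ((12 * X ^ 2 + 2 * b2 * X + 2 * b4) * (κ * W)) := by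
    have ex : ((4 : ℤ) : Om) * X ^ 3 + b2 * X ^ 2 + ((2 : ℤ) : Om) * b4 * X + b6 = W ^ 2 := by
      rw [hcur]
      push_cast
      ring
    rw [ex] at f4
    refine (congrArg (Dr P p I π q W0 (W ^ 2)) ?_).mp f4
    push_cast
    ring
  have hinv := d7 _ _ (DI.UP.pow hW 2) hψ
  have hm := (d5 _ _ _ _ e3 hinv).2.2
  have hX' : (X ^ 4 - b4 * X ^ 2 - ((2 : ℤ) : Om) * b6 * X - b8) * (W ^ 2)⁻¹ = X' := by
    have h : X ^ 4 - b4 * X ^ 2 - ((2 : ℤ) : Om) * b6 * X - b8 = X' * W ^ 2 := by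
      rw [hdup]
      push_cast
      ring
    rw [h, mul_assoc, mul_inv_cancel₀ (pow_ne_zero 2 hW0'), mul_one]
  rw [hX'] at hm
  refine (congrArg (Dr P p I π q W0 X') ?_).mp hm
  push_cast
  field_simp
  linear_combination κ * hder

end Pool.Agent.DL
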