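import Pool.Agent.Lib.DL.Spec

/-!
# DL, module Fix: the derivative of an element fixed by a subgroup (author helper97)
-/

set_option autoImplicit false

open scoped Pointwise

noncomputable section

namespace Pool.Agent.DL

open Pool.Agent.MuZ Pool.Agent.FW
open Pool.Agent.DI (VP MP UP TP)

theorem tFix : S_Fix := by
  intro hPol hCn P p e I S π hG q q' W S' hW hmem hq0 hqq hq' x y hD hfix
  have hPp := hG.prime
  obtain ⟨F, hF, hFx, hFy⟩ := hD
  obtain ⟨-, -, -, -, -, -, -, hev, hevs, -⟩ := hCn P I hG.prime hG.ine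
  have hcard : 0 < S.card := Finset.card_pos.2 ⟨π, hG.mem⟩
  have hπ : VP P π := by
    rw [← vl_nonneg hG.pl hG.ne, hG.vpi]
    positivity
  have hval : ∀ r ∈ S', VP P r ∧ F.eval r = x := by
    intro r hr
    obtain ⟨σ, hσ, h1, h2⟩ := hfix r hr
    refine ⟨?_, ?_⟩
    · rw [← h1]
      exact DI.VP.inertia_vp (hG.ine σ hσ) hπ
    · have h3 := hevs F hF π σ hσ
      rw [hFx, h1, h2] at h3
      exact h3.symm
  have hxV : VP P x := by
    rw [← hFx]
    exact hev F hF π hπ
  obtain ⟨y1, hy1, hy2⟩ := (hPol P hG.prime S' F (fun r hr => (hval r hr).1) (fun i => (hF i).1)).1 x hxV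
    (fun r hr => (hval r hr).2) π hmem
  have g1 : GE P p q' (F.derivative.eval π * W) := by
    rw [hy2]
    exact GE.mul_right hG.pl (GE.mul_right hG.pl (Or.inr hq') hy1) hW
  have g2 := GE.add hG.pl (GE.mono hFy hqq) g1
  rwa [sub_add_cancel] at g2

end Pool.Agent.DL
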