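import Pool.Agent.Lib.DL.Spec

/-!
# DL, module K2: valuations for a subgroup of index at most two of the inertia group
-/

set_option autoImplicit false

open scoped Pointwise

noncomputable section

namespace Pool.Agent.DL

open Pool.Agent.MuZ Pool.Agent.FW
open Pool.Agent.DI (VP MP UP TP)

theorem tK2 : S_K2 := by
  intro hK0 P p G hP hp hPl hG x hx hx0
  have hP' : P.IsPrime := hP
  by_cases hle : P.inertia Gal(Om/ℚ) ≤ G
  · obtain ⟨j, hj⟩ := hK0 P p hP hp hPl x (fun τ hτ => hx τ ⟨hτ, hle hτ⟩) hx0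
    refine ⟨2 * j, ?_⟩
    rw [hj]
    push_cast
    ring
  · obtain ⟨σ, hσ, hσG⟩ := SetLike.not_le_iff_exists.1 hle
    have hσx0 : σ x ≠ 0 := fun h => hx0 ((map_eq_zero σ).1 h)
    have hσi : σ⁻¹ ∈ P.inertia Gal(Om/ℚ) := inv_mem hσ
    have hσG' : σ⁻¹ ∉ G := fun h => hσG (by simpa using inv_mem h)
    have hfix : ∀ τ ∈ P.inertia Gal(Om/ℚ), τ (x * σ x) = x * σ x := by
      intro τ hτ
      by_cases hτG : τ ∈ G
      · have h1 : τ x = x := hx τ ⟨hτ, hτG⟩
        have hgI : σ⁻¹ * τ * σ ∈ P.inertia Gal(Om/ℚ) := mul_mem (mul_mem hσi hτ) hσ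
        have hmul : σ * (σ⁻¹ * τ * σ) = τ * σ := by group
        have hgG : σ⁻¹ * τ * σ ∈ G := by
          by_contra hg
          have h2 : τ * σ ∈ G := hmul ▸ hG σ _ hσG hg
          have h3 : τ⁻¹ * (τ * σ) ∈ G := mul_mem (inv_mem hτG) h2
          rw [inv_mul_cancel_left] at h3
          exact hσG h3
        have h4 : (σ⁻¹ * τ * σ) x = x := hx _ ⟨hgI, hgG⟩
        have h5 : τ (σ x) = σ x := by
          calc τ (σ x) = (τ * σ) x := rfl
            _ = (σ * (σ⁻¹ * τ * σ)) x := by rw [hmul]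
            _ = σ ((σ⁻¹ * τ * σ) x) := rfl
            _ = σ x := by rw [h4]
        rw [map_mul, h1, h5]
      · have h1 : (σ⁻¹ * τ) x = x := hx _ ⟨mul_mem hσi hτ, hG _ _ hσG' hτG⟩
        have h2 : τ x = σ x := by
          calc τ x = (σ * (σ⁻¹ * τ)) x := by rw [mul_inv_cancel_left]
            _ = σ ((σ⁻¹ * τ) x) := rfl
            _ = σ x := by rw [h1]
        have h3 : τ (σ x) = x := hx (τ * σ) ⟨mul_mem hτ hσ, hG _ _ hτG hσG⟩
        rw [map_mul, h2, h3, mul_comm]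
    obtain ⟨j, hj⟩ := hK0 P p hP hp hPl (x * σ x) hfix (mul_ne_zero hx0 hσx0)
    rw [vl_mul hPl hx0 hσx0, vl_inertia hPl hσ hx0] at hj
    refine ⟨j, ?_⟩
    linarith

end Pool.Agent.DL
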