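import Pool.Agent.Lib.DL.Spec

/-!
# The derivative of `X(z + u)` from the Kummer relation (author helper69)
-/

set_option autoImplicit false

open scoped Pointwise

noncomputable section

namespace Pool.Agent.DL

open Pool.Agent.MuZ Pool.Agent.FW
open Pool.Agent.DI (VP MP UP TP)

private theorem dr_congr {P : Ideal ZZ} {p : ℕ} {I : Subgroup Gal(Om/ℚ)} {π : Om} {q : ℚ} {W x y x' y' : Om}
    (h : Dr P p I π q W x y) (hx : x = x') (hy : y = y') : Dr P p I π q W x' y' := by
  subst hx hy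
  exact h

theorem tKum : S_Kum := by
  classical
  intro hCn hDer P p e I S π hG q W0 hq0 hq hW0 X X' U W W' V κ b2 b4 b6 b8 hU hV hκ h2 h4 h6 h8 uV uW fX' vX' vW' hX
    k1 k2 k3
  have hPp := hG.prime
  obtain ⟨d1, d2, -, d4, d5, -, -, d8, -, -, -⟩ := hDer P p e I S π hG q W0 hq0 hq hW0
  obtain ⟨c1, -, -, -, -, -, -, -, -, -⟩ := hCn P I hG.prime hG.ine
  have o0 : Cn P I 0 := by
    have h := c1 0
    rwa [Int.cast_zero] at h
  obtain ⟨y, hy⟩ := d8 X' fX' vX'
  have aU := d4 _ hU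
  have a2 := d4 _ h2
  have a4 := d4 _ h4
  have a6 := d4 _ h6
  have a8 := d4 _ h8
  have add : ∀ {x y x' y' : Om}, Dr P p I π q W0 x y → Dr P p I π q W0 x' y' →
      Dr P p I π q W0 (x + x') (y + y') := fun h h' => (d5 _ _ _ _ h h').1
  have sub : ∀ {x y x' y' : Om}, Dr P p I π q W0 x y → Dr P p I π q W0 x' y' →
      Dr P p I π q W0 (x - x') (y - y') := fun h h' => (d5 _ _ _ _ h h').2.1
  have mul : ∀ {x y x' y' : Om}, Dr P p I π q W0 x y → Dr P p I π q W0 x' y' →
      Dr P p I π q W0 (x * x') (x * y' + x' * y) := fun h h' => (d5 _ _ _ _ h h').2.2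
  have q1 := mul (mul (sub hX aU) (sub hX aU)) (mul hy hy)
  have xu := mul hX aU
  have s := add hX aU
  have p1 := mul xu s
  have hA := add (add (add (add p1 p1) (mul a2 xu)) (mul a4 s)) a6
  have q2 := mul hA hy
  have q3 := sub (sub (sub (mul xu xu) (mul a4 xu)) (mul a6 s)) a8
  have qq := add (sub q1 q2) q3
  have q' : Dr P p I π q W0 0 (W * V * (κ * W' - y)) := by
    refine dr_congr qq ?_ ?_
    · linear_combination k1
    · linear_combination κ * k3 + y * k2
  have g := d1 _ _ _ q' (d4 0 o0)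
  rw [sub_zero] at g
  have hWV : UP P (W * V) := uW.mul uV
  have g2 := GE.mul_left hG.pl hWV.inv.1 g
  rw [inv_mul_cancel_left₀ hWV.ne_zero] at g2
  exact d2 _ _ _ hy g2

end Pool.Agent.DL
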