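import Pool.Agent.Lib.DL.Spec

/-!
# Rules for logarithmic derivatives (adapted from `DN/GL/LDr.lean`)
-/

set_option autoImplicit false

open scoped Pointwise

noncomputable section

namespace Pool.Agent.DL

open Pool.Agent.MuZ Pool.Agent.FW
open Pool.Agent.DI (VP MP UP TP)

theorem tLDr : S_LDr := by
  intro _ hDer P p e I S π hG q W hq hq' hW
  have hPr : P.IsPrime := hG.prime
  have h2 : Pl P p := hG.pl
  obtain ⟨d1, -, d3, d4, d5, -, d7, -, -, -, -⟩ := hDer P p e I S π hG q W hq hq' hW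
  have c1 : ∀ a : Om, Cn P I a → UP P a → LD P p I π q W a 0 := by
    intro a ha hu
    refine ⟨hu, DI.VP.zero, fun σ hσ _ => ha.2 σ hσ, ?_⟩
    rw [mul_zero]
    exact d4 a ha
  have c2 : ∀ x y x' y' : Om, LD P p I π q W x y → LD P p I π q W x' y' →
      LD P p I π q W (x * x') (y + y') := by
    rintro x y x' y' ⟨u1, v1, f1, D1⟩ ⟨u2, v2, f2, D2⟩
    refine ⟨DI.UP.mul u1 u2, DI.VP.add v1 v2, ?_, ?_⟩
    · intro σ hσ hπ
      rw [map_mul, f1 σ hσ hπ, f2 σ hσ hπ]
    · have h := (d5 _ _ _ _ D1 D2).2.2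
      have e : x * (x' * y') + x' * (x * y) = x * x' * (y + y') := by ring
      rwa [e] at h
  have c0 : LD P p I π q W 1 0 :=
    c1 1 ⟨DI.VP.one, fun σ _ => map_one σ⟩ DI.UP.one
  refine ⟨c1, c2, ?_, ?_, ?_, ?_, ?_⟩
  · rintro x y ⟨u1, v1, f1, D1⟩
    refine ⟨DI.UP.inv u1, DI.VP.neg v1, ?_, ?_⟩
    · intro σ hσ hπ
      rw [map_inv₀, f1 σ hσ hπ]
    · have h := d7 x _ u1 D1
      have hx0 := u1.ne_zero
      have e : -(x * y / x ^ 2) = x⁻¹ * -y := by
        field_simp
      rwa [e] at h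
  · intro x y j h
    induction j with
    | zero =>
      rw [pow_zero, Nat.cast_zero, zero_mul]
      exact c0
    | succ j ih =>
      have h1 := c2 _ _ _ _ ih h
      have e : (j : Om) * y + y = ((j + 1 : ℕ) : Om) * y := by
        push_cast
        ring
      rw [pow_succ]
      rwa [e] at h1
  · intro ι T x y
    classical
    induction T using Finset.induction_on with
    | empty =>
      intro _
      rw [Finset.prod_empty, Finset.sum_empty]
      exact c0
    | insert a T ha ih =>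
      intro h
      rw [Finset.prod_insert ha, Finset.sum_insert ha]
      exact c2 _ _ _ _ (h a (Finset.mem_insert_self a T))
        (ih fun i hi => h i (Finset.mem_insert_of_mem hi))
  · intro x y hu hD
    refine ⟨hu, ?_, (d3 x y hD).2.2, ?_⟩
    · rw [div_eq_mul_inv]
      exact DI.VP.mul (d3 x y hD).2.1 (DI.UP.inv hu).1
    · rwa [mul_div_cancel₀ _ hu.ne_zero]
  · rintro x y y' ⟨u1, -, -, D1⟩ ⟨-, -, -, D2⟩
    have h := GE.mul_left h2 (DI.UP.inv u1).1 (d1 _ _ _ D1 D2)
    have hx0 := u1.ne_zero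
    have e : x⁻¹ * (x * y - x * y') = y - y' := by
      field_simp
    rwa [e] at h

end Pool.Agent.DL
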