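import Pool.Agent.Lib.DL.Spec

/-!
# The local step, abstract part, module Mono: integral elements of `K0(π)` are polynomials in `π`
-/

set_option autoImplicit false

open scoped Pointwise

noncomputable section

namespace Pool.Agent.DL

open Pool.Agent.MuZ Pool.Agent.FW
open Pool.Agent.DI (VP MP UP TP)

/-- The values of the terms `a_j π^j`, `v(a_j)` in `(1/e) ℤ`, `v(π) = 1/(e n)`, `j < n`. -/
private theorem Mono_val {P : Ideal ZZ} [P.IsPrime] {p : ℕ} (h2 : Pl P p) {e n : ℕ} (he : 0 < e)
    (hn : 0 < n) {w : Om} (hw : w ≠ 0) (hv : vl P p w = 1 / (e * n)) (a : ℕ → Om)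
    (ha : ∀ j, a j ≠ 0 → ∃ i : ℤ, vl P p (a j) = i / e) (m : ℕ) (hm : m ≤ n) :
    (∀ j < m, a j = 0) ∨ (∑ j ∈ Finset.range m, a j * w ^ j ≠ 0 ∧
      (∃ j0 < m, a j0 ≠ 0 ∧
        vl P p (∑ j ∈ Finset.range m, a j * w ^ j) = vl P p (a j0) + (j0 : ℚ) / (e * n)) ∧
      ∀ j < m, a j ≠ 0 →
        vl P p (∑ j ∈ Finset.range m, a j * w ^ j) ≤ vl P p (a j) + (j : ℚ) / (e * n)) := by
  have hn0 : (0 : ℚ) < n := by exact_mod_cast hn
  have he0 : (0 : ℚ) < e := by exact_mod_cast he
  have hterm : ∀ j, a j ≠ 0 → vl P p (a j * w ^ j) = vl P p (a j) + (j : ℚ) / (e * n) := by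
    intro j hj
    rw [vl_mul h2 hj (pow_ne_zero _ hw), vl_pow h2 hw, hv]
    ring
  induction m with
  | zero => exact Or.inl fun j hj => absurd hj (Nat.not_lt_zero j)
  | succ m ih =>
    rw [Finset.sum_range_succ]
    by_cases ham : a m = 0
    · rw [ham, zero_mul, add_zero]
      rcases ih (by omega) with h | ⟨h1, ⟨j0, hj0, h3, h4⟩, h5⟩
      · left
        intro j hj
        rcases Nat.lt_succ_iff_lt_or_eq.1 hj with h6 | h6
        · exact h j h6
        · rw [h6]; exact ham
      · right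
        refine ⟨h1, ⟨j0, by omega, h3, h4⟩, fun j hj hja => ?_⟩
        rcases Nat.lt_succ_iff_lt_or_eq.1 hj with h6 | h6
        · exact h5 j h6 hja
        · rw [h6] at hja; exact absurd ham hja
    · right
      have htm : a m * w ^ m ≠ 0 := mul_ne_zero ham (pow_ne_zero _ hw)
      rcases ih (by omega) with h | ⟨h1, ⟨j0, hj0, h3, h4⟩, h5⟩
      · have hs : ∑ j ∈ Finset.range m, a j * w ^ j = 0 := by
          apply Finset.sum_eq_zero
          intro j hj
          rw [h j (Finset.mem_range.1 hj), zero_mul]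
        rw [hs, zero_add]
        refine ⟨htm, ⟨m, by omega, ham, hterm m ham⟩, fun j hj hja => ?_⟩
        rcases Nat.lt_succ_iff_lt_or_eq.1 hj with h6 | h6
        · exact absurd (h j h6) hja
        · rw [h6, hterm m ham]
      · obtain ⟨i0, hi0⟩ := ha j0 h3
        obtain ⟨im, him⟩ := ha m ham
        have hne : vl P p (∑ j ∈ Finset.range m, a j * w ^ j) ≠ vl P p (a m * w ^ m) := by
          rw [h4, hterm m ham, hi0, him]
          intro h
          have h6 : ((m : ℤ) - j0 : ℤ) = (i0 - im) * n := by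
            have h7 : ((m : ℚ) - j0) = (i0 - im) * n := by
              field_simp at h
              linarith
            exact_mod_cast h7
          have h8 : (0 : ℤ) < (i0 - im) * n := by
            rw [← h6]
            omega
          have h9 : (i0 - im) * (n : ℤ) < n := by
            rw [← h6]
            omega
          have hnz : (0 : ℤ) < n := by exact_mod_cast hn
          have h10 : 1 ≤ i0 - im := by
            by_contra hc
            have h11 := mul_nonpos_of_nonpos_of_nonneg (show i0 - im ≤ 0 by omega) hnz.le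
            linarith
          have h12 := mul_le_mul_of_nonneg_right h10 hnz.le
          linarith
        rcases lt_or_gt_of_ne hne with h6 | h6
        · obtain ⟨h7, h8⟩ := vl_add_lt h2 h1 (Or.inr h6)
          refine ⟨h7, ⟨j0, by omega, h3, ?_⟩, fun j hj hja => ?_⟩
          · rw [h8, h4]
          · rw [h8]
            rcases Nat.lt_succ_iff_lt_or_eq.1 hj with h9 | h9
            · exact h5 j h9 hja
            · rw [h9, ← hterm m ham]
              exact h6.le
        · have h6' : vl P p (a m * w ^ m) < vl P p (∑ j ∈ Finset.range m, a j * w ^ j) := h6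
          obtain ⟨h7, h8⟩ := vl_add_lt h2 htm (Or.inr h6')
          rw [add_comm] at h7 h8
          refine ⟨h7, ⟨m, by omega, ham, ?_⟩, fun j hj hja => ?_⟩
          · rw [h8, hterm m ham]
          · rw [h8]
            rcases Nat.lt_succ_iff_lt_or_eq.1 hj with h9 | h9
            · exact h6'.le.trans (h5 j h9 hja)
            · rw [h9, ← hterm m ham]

/-- The coefficients are integral. -/
private theorem Mono_int {P : Ideal ZZ} [P.IsPrime] {p : ℕ} (h2 : Pl P p) {e n : ℕ} (he : 0 < e)
    (hn : 0 < n) {w : Om} (hw : w ≠ 0) (hv : vl P p w = 1 / (e * n)) (a : ℕ → Om)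
    (ha : ∀ j, a j ≠ 0 → ∃ i : ℤ, vl P p (a j) = i / e)
    (hx : VP P (∑ j ∈ Finset.range n, a j * w ^ j)) (j : ℕ) (hj : j < n) : VP P (a j) := by
  by_cases h0 : a j = 0
  · rw [h0]
    exact DI.VP.zero
  rcases Mono_val h2 he hn hw hv a ha n le_rfl with h | ⟨h1, -, h5⟩
  · exact absurd (h j hj) h0
  · have h3 := h5 j hj h0
    have h4 := (vl_nonneg h2 h1).2 hx
    rw [← vl_nonneg h2 h0]
    obtain ⟨i, hi⟩ := ha j h0
    rw [hi] at h3 ⊢
    have hn0 : (0 : ℚ) < n := by exact_mod_cast hn
    have he0 : (0 : ℚ) < e := by exact_mod_cast he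
    have h6 : (j : ℚ) / n < 1 := by
      rw [div_lt_one hn0]
      exact_mod_cast hj
    have h10 : (0 : ℚ) ≤ (i + (j : ℚ) / n) / e := by
      have h11 : (i : ℚ) / e + (j : ℚ) / (e * n) = (i + (j : ℚ) / n) / e := by
        field_simp
      rw [← h11]
      linarith
    have h12 : (0 : ℚ) ≤ i + (j : ℚ) / n := by
      by_contra hc
      have h13 := div_neg_of_neg_of_pos (not_le.1 hc) he0
      linarith
    have h7 : (-1 : ℚ) < i := by linarith
    have h8 : (-1 : ℤ) < i := by exact_mod_cast h7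
    have h9 : (0 : ℤ) ≤ i := by omega
    have h14 : (0 : ℚ) ≤ i := by exact_mod_cast h9
    exact div_nonneg h14 he0.le

/-- An automorphism which permutes nodes and values fixes the interpolation polynomial. -/
private theorem Mono_perm {ι : Type} [DecidableEq ι] (T : Finset ι) (q : ι → Om) (x : ι → Om)
    (hp : Set.InjOn q T) (τ : Gal(Om/ℚ))
    (hτ : ∀ h ∈ T, ∃ h' ∈ T, τ (q h') = q h ∧ τ (x h') = x h) (i : ℕ) :
    τ ((Lagrange.interpolate T q x).coeff i) = (Lagrange.interpolate T q x).coeff i := by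
  have h1 : (Lagrange.interpolate T q x).map ((τ : Om ≃ₐ[ℚ] Om) : Om →+* Om) =
      Lagrange.interpolate T q x := by
    apply Lagrange.eq_interpolate_of_eval_eq x hp
    · rw [Polynomial.degree_map]
      exact Lagrange.degree_interpolate_lt x hp
    · intro h hh
      obtain ⟨h', hh', e1, e2⟩ := hτ h hh
      have e3 : Polynomial.eval (q h) ((Lagrange.interpolate T q x).map
          ((τ : Om ≃ₐ[ℚ] Om) : Om →+* Om)) =
          τ (Polynomial.eval (q h') (Lagrange.interpolate T q x)) := by
        rw [← e1]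
        exact Polynomial.eval_map_apply ((τ : Om ≃ₐ[ℚ] Om) : Om →+* Om) (q h')
      rw [e3, Lagrange.eval_interpolate_at_node x hp hh', e2]
  have h2 := congrArg (fun F : Polynomial Om => F.coeff i) h1
  simp only [Polynomial.coeff_map] at h2
  exact h2

theorem tMono : S_Mono := by
  classical
  intro P p e I S π hG x hx hxv
  have hpr := hG.prime
  have h2 : Pl P p := hG.pl
  have hs : ∀ r : Om, ∃ τ : Gal(Om/ℚ), r ∈ S → τ ∈ I ∧ τ π = r := by
    intro r
    by_cases hr : r ∈ S
    · obtain ⟨τ, hτ⟩ := hG.tra r hr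
      exact ⟨τ, fun _ => hτ⟩
    · exact ⟨1, fun h => absurd h hr⟩
  choose s hs using hs
  -- two elements of `I` with the same value at `π` agree on `x`
  have key : ∀ τ ∈ I, ∀ τ' ∈ I, τ π = τ' π → τ x = τ' x := by
    intro τ hτ τ' hτ' h
    have h1 : (τ'⁻¹ * τ) π = π := by
      rw [AlgEquiv.mul_apply, h, ← AlgEquiv.mul_apply, inv_mul_cancel, AlgEquiv.one_apply]
    have h3 := hx _ (I.mul_mem (I.inv_mem hτ') hτ) h1
    have h6 : τ' ((τ'⁻¹ * τ) x) = τ x := by
      rw [← AlgEquiv.mul_apply, mul_inv_cancel_left]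
    rw [← h6, h3]
  have hinj : Set.InjOn (fun r : Om => r) (S : Set Om) := fun a _ b _ h => h
  obtain ⟨F, hF⟩ : ∃ F, F = Lagrange.interpolate S (fun r : Om => r) (fun r => s r x) := ⟨_, rfl⟩
  have hFdeg : F.degree < S.card := by
    rw [hF]
    exact Lagrange.degree_interpolate_lt _ hinj
  have hev : F.eval π = x := by
    have h3 := Lagrange.eval_interpolate_at_node (s := S) (v := fun r : Om => r)
      (fun r => s r x) hinj hG.mem
    have h4 : s π x = x := hx _ (hs π hG.mem).1 (hs π hG.mem).2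
    rw [hF]
    exact h3.trans h4
  have hfix : ∀ i, Fi I (F.coeff i) := by
    intro i τ hτ
    rw [hF]
    apply Mono_perm S _ _ hinj τ
    intro r hr
    have hr' : τ⁻¹ r ∈ S := hG.stab _ (I.inv_mem hτ) r hr
    have e1 : τ (τ⁻¹ r) = r := by
      rw [← AlgEquiv.mul_apply, mul_inv_cancel, AlgEquiv.one_apply]
    refine ⟨τ⁻¹ r, hr', e1, ?_⟩
    have h4 := key (τ * s (τ⁻¹ r)) (I.mul_mem hτ (hs _ hr').1) (s r) (hs r hr).1 (by
      rw [AlgEquiv.mul_apply, (hs _ hr').2, e1, (hs r hr).2])
    rw [AlgEquiv.mul_apply] at h4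
    exact h4
  have hval : ∀ i, F.coeff i ≠ 0 → ∃ j : ℤ, vl P p (F.coeff i) = j / e := fun i hi =>
    hG.val _ (hfix i) hi
  have hSpos : 0 < S.card := Finset.card_pos.2 ⟨π, hG.mem⟩
  have hFnat : F.natDegree < S.card := by
    by_cases hF0 : F = 0
    · rw [hF0, Polynomial.natDegree_zero]
      exact hSpos
    · exact (Polynomial.natDegree_lt_iff_degree_lt hF0).2 hFdeg
  have hsum : ∑ i ∈ Finset.range S.card, F.coeff i * π ^ i = x := by
    rw [← Polynomial.eval_eq_sum_range' hFnat, hev]
  refine ⟨F, fun i => ⟨?_, hfix i⟩, hev⟩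
  by_cases hi : i < S.card
  · refine Mono_int h2 hG.pos hSpos hG.ne hG.vpi (fun i => F.coeff i) hval ?_ i hi
    rw [hsum]
    exact hxv
  · rw [Polynomial.coeff_eq_zero_of_natDegree_lt (by omega)]
    exact DI.VP.zero

end Pool.Agent.DL
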