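import Pool.Agent.Lib.DL.Tow2

/-!
# The abstract tower, `2` ramified: the square root (RSq)
-/

set_option autoImplicit false

open scoped Pointwise

noncomputable section

namespace Pool.Agent.DL

open Pool.Agent.MuZ Pool.Agent.FW Pool.Agent.DI
open Pool.Agent.DI.GL (Fx StP xx mem_of_Fx Fx.mul Fx.inv Fx.one)

private theorem RSq_mem {L : IntermediateField ℚ Om} {LN : ℕ → IntermediateField ℚ Om}
    {P : Ideal ZZ} (hS : SitR L LN P) {N : ℕ} (hN : 2 ≤ N) {ζ : Om}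
    (hζ : IsPrimitiveRoot ζ (2 ^ N)) : xx ζ ∈ LN N := by
  refine mem_of_Fx fun τ hτ => ?_
  have h2 := ((hS.lnx N ζ (by omega) hζ τ).1 hτ).2
  unfold xx
  rw [map_add, map_add, map_inv₀, map_ofNat]
  rcases h2 with h | h
  · rw [h]
  · rw [h, inv_inv]
    ring

theorem tRSq : S_RSq := by
  intro hCpt hG8 L LN P hS N hN3 ζ hζ w hw hwU hd
  have hN : 2 ≤ N := by omega
  have hP := hS.prime
  have hPi := hS.prime
  have hKap := DI.GL.tKap
  have hw0 : w ≠ 0 := hwU.ne_zero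
  obtain ⟨m0, hm0⟩ := hCpt L LN P hS (sqr w) (fun d h => (hKap.1 w (sqr w) d (sqr_sq w)).1 (hd d h))
  have hm : ∀ d : Gal(Om/ℚ), DN.GL.DL L P m0 d → kap w d = 0 := fun d h =>
    (hKap.1 w (sqr w) d (sqr_sq w)).2 (hm0 m0 le_rfl d h)
  obtain ⟨e, b, he, hb, h⟩ := hG8 L LN P hS N hN3 ζ hζ w hw hw0 m0 hm
  obtain ⟨r, hr⟩ : ∃ r : Om, r ^ 2 = w * (e * xx ζ ^ b) := ⟨_, sqr_sq _⟩
  have hinv := h r hr
  obtain ⟨hx0, hxM, hxV, -, -⟩ := DI.GL.tX0 P hP hS.two N hN ζ hζ
  have hxL : xx ζ ∈ LN N := RSq_mem hS hN hζ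
  have heL : e ∈ LN N := by
    rcases he with h | h
    · rw [h]; exact one_mem _
    · rw [h]; exact neg_mem (one_mem _)
  have hVe : VP P e := by
    rcases he with h | h
    · rw [h]; exact VP.one
    · rw [h]; exact VP.one.neg
  have hUe : UP P e := by
    rcases he with h | h
    · rw [h]; exact UP.one
    · rw [h]; exact UP.one.neg
  have hrL : r ^ 2 ∈ LN N := by
    rw [hr]
    exact mul_mem hw (mul_mem heL (pow_mem hxL b))
  have hApp : ∀ M : ℕ, ∃ r' ∈ LN N, TP P (2 ^ M) (r - r') :=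
    DI.GL.tApp DI.GL.tStb DI.GL.tArch (LN N) P hP hS.two r hrL hinv
  have hVr : VP P r := by
    refine VP.of_pow (n := 2) (by norm_num) ?_
    rw [hr]
    exact hwU.1.mul (hVe.mul (hxM.vp.pow b))
  have h2V : VP P (2 : Om) := by exact_mod_cast VP.nat (P := P) 2
  have h4V : VP P (4 : Om) := by exact_mod_cast VP.nat (P := P) 4
  refine ⟨e, b, he, hb, ?_, fun M => ?_⟩
  · rintro rfl
    obtain ⟨r', hr'L, y, hy, hry⟩ := hApp 2
    have hry' : r - r' = 4 * y := by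
      rw [hry]
      norm_num
    refine ⟨r', hr'L, ?_⟩
    have h1 : r' ^ 2 / xx ζ - w * e = 2 * (-(2 * ((2 / xx ζ) * (r * y))) +
        4 * ((2 / xx ζ) * y ^ 2)) := by
      have h2 : r' = r - 4 * y := by linear_combination -hry'
      rw [h2]
      field_simp
      rw [pow_one] at hr
      linear_combination hr
    refine (hwU.mul hUe).congr ?_
    rw [h1, mul_comm]
    refine MP.mul_left ?_ hS.two
    exact (h2V.mul (hxV.mul (hVr.mul hy))).neg.add (h4V.mul (hxV.mul (hy.pow 2)))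
  · obtain ⟨r', hr'L, y, hy, hry⟩ := hApp M
    have h2 : r' = r - 2 ^ M * y := by linear_combination -hry
    refine ⟨r', hr'L, ?_, y * (2 * r - 2 ^ M * y), ?_, ?_⟩
    · rw [h2]
      exact hVr.sub ((h2V.pow M).mul hy)
    · exact hy.mul ((h2V.mul hVr).sub ((h2V.pow M).mul hy))
    · rw [← hr, h2]
      ring

end Pool.Agent.DL
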