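import Pool.Agent.Lib.DL.Spec

/-!
# The local step (DR, DM), module Rt: logarithmic derivative of an approximate `p`-th power
-/

set_option autoImplicit false

open scoped Pointwise

noncomputable section

namespace Pool.Agent.DL

open Pool.Agent.MuZ Pool.Agent.FW
open Pool.Agent.DI (VP MP UP TP)

theorem tRt : S_Rt := by
  intro hCn hDer P p e I S π hG q W hq0 hqd hW hp w Y c yc u yu s D M hLD hc0 hcV hDc hDu hFs hVs hGD heq hcM
  have hPp : P.IsPrime := hG.prime
  have h2 : Pl P p := hG.pl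
  obtain ⟨hwU, hYV, hwF, hDw⟩ := hLD
  obtain ⟨d1, d2, d3, d4, d5, d6, d7, d8, -⟩ := hDer P p e I S π hG q W hq0 hqd hW
  obtain ⟨c1, c2, c3, -⟩ := hCn P I hPp hG.ine
  obtain ⟨ys, hDs⟩ := d8 s hFs hVs
  have hw0 : w ≠ 0 := DI.UP.ne_zero hwU
  -- the constant `p ^ M`
  have hcp : Cn P I ((p : Om) ^ M) := by
    have h := c3 _ M (c1 (p : ℤ))
    rwa [Int.cast_natCast] at h
  have hL := (d5 _ _ _ _ hDw hDc).2.2
  have hR := (d5 _ _ _ _ (d6 _ _ p hDu) (d5 _ _ _ _ (d4 _ hcp) hDs).2.2).1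
  rw [heq] at hL
  have hdiff := d1 _ _ _ hL hR
  -- the valuation of `u`
  have hvw : vl P p w = 0 := vl_of_up h2 hwU
  have hvwc : vl P p (w * c) = vl P p c := by rw [vl_mul h2 hw0 hc0, hvw, zero_add]
  have hup : u ^ p = w * c + -((p : Om) ^ M * s) := by rw [heq]; ring
  have hadd : w * c + -((p : Om) ^ M * s) ≠ 0 ∧ vl P p (w * c + -((p : Om) ^ M * s)) = vl P p (w * c) := by
    refine vl_add_lt h2 (mul_ne_zero hw0 hc0) ?_
    by_cases hs0 : s = 0
    · left
      rw [hs0, mul_zero, neg_zero]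
    · right
      have hpM : (p : Om) ^ M ≠ 0 := pow_ne_zero _ h2.nz
      rw [vl_neg h2 (mul_ne_zero hpM hs0), vl_mul h2 hpM hs0, vl_two_pow h2, hvwc]
      have h3 := (vl_nonneg h2 hs0).2 hVs
      linarith
  rw [← hup, hvwc] at hadd
  have hu0 : u ≠ 0 := by
    rintro rfl
    exact hadd.1 (zero_pow hp.ne_zero)
  have hvu : (p : ℚ) * vl P p u = vl P p c := by rw [← vl_pow h2 hu0, hadd.2]
  have hpos : (0 : ℚ) < p := by exact_mod_cast hp.pos
  have hvu' : vl P p u = vl P p c / p := by rw [← hvu]; field_simp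
  obtain ⟨t, ht⟩ : ∃ t, t = min (1 + D - vl P p c / p) (min (M - vl P p c) (q - vl P p c)) := ⟨_, rfl⟩
  have ht1 : t ≤ 1 + D - vl P p c / p := ht.trans_le (min_le_left _ _)
  have ht2 : t ≤ M - vl P p c := ht.trans_le ((min_le_right _ _).trans (min_le_left _ _))
  have ht3 : t ≤ q - vl P p c := ht.trans_le ((min_le_right _ _).trans (min_le_right _ _))
  rw [← ht]
  -- the three parts
  have hA : GE P p (t + vl P p c) ((p : Om) * u ^ (p - 1) * yu) := by
    have h3 : GE P p 1 (p : Om) := Or.inr (vl_two h2).ge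
    have h4 : GE P p (((p - 1 : ℕ) : ℚ) * vl P p u) (u ^ (p - 1)) := Or.inr (vl_pow h2 hu0 _).ge
    refine ((h3.mul h2 h4).mul h2 hGD).mono ?_
    rw [Nat.cast_sub hp.one_le, Nat.cast_one, sub_mul, one_mul, hvu, hvu']
    linarith
  have hB : GE P p (t + vl P p c) ((p : Om) ^ M * ys) := by
    have h3 : GE P p (M : ℚ) ((p : Om) ^ M) := Or.inr (vl_two_pow h2 M).ge
    exact (h3.mul_right h2 (d3 _ _ hDs).2.1).mono (by linarith)
  have hC := hdiff.mono (show t + vl P p c ≤ q by linarith)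
  have hsum : GE P p (t + vl P p c) (w * (c * Y + yc)) := by
    have h3 := hC.add h2 (hA.add h2 hB)
    have h4 : w * (c * Y + yc) = w * yc + c * (w * Y) - ((p : Om) * u ^ (p - 1) * yu + ((p : Om) ^ M * ys + s * 0)) +
        ((p : Om) * u ^ (p - 1) * yu + (p : Om) ^ M * ys) := by ring
    rw [h4]
    exact h3
  have hfin : GE P p (t + vl P p c) (c * Y + yc) := by
    have h3 := GE.mul_left h2 (DI.UP.inv hwU).1 hsum
    rwa [inv_mul_cancel_left₀ hw0] at h3
  have h5 := hfin.div h2 hc0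
  rw [add_sub_cancel_right, add_div, mul_div_cancel_left₀ _ hc0] at h5
  exact h5

end Pool.Agent.DL
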