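import Pool.Agent.Lib.DL.Spec

/-!
# The local step (DR, DM), abstract part, module TrH: the trace from the field of `SH` to `K0`
-/

set_option autoImplicit false

open scoped Pointwise

noncomputable section

namespace Pool.Agent.DL

open Pool.Agent.MuZ Pool.Agent.FW
open Pool.Agent.DI (VP MP UP TP)

open Classical in
private theorem dl_ne (A : Finset Om) (a : Om) : dl A a ≠ 0 := by
  unfold dl
  exact Finset.prod_ne_zero_iff.2 fun r hr => sub_ne_zero.2 (Finset.ne_of_mem_erase hr).symm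

open Classical in
private theorem dl_map (σ : Gal(Om/ℚ)) (A : Finset Om) (hA : ∀ r ∈ A, σ r ∈ A) (a : Om) :
    σ (dl A a) = dl A (σ a) := by
  unfold dl
  rw [map_prod]
  have h1 : A.image σ = A := by
    refine Finset.eq_of_subset_of_card_le (Finset.image_subset_iff.2 hA) ?_
    rw [Finset.card_image_of_injective _ σ.injective]
  have h2 : (A.erase a).image σ = A.erase (σ a) := by
    rw [Finset.image_erase σ.injective, h1]
  rw [← h2, Finset.prod_image fun x _ y _ h => σ.injective h]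
  simp only [map_sub]

theorem tTrH : S_TrH := by
  classical
  intro pol cn mono P p e I S π hG SH z l ι T s hπ hSH hz hσ hsI hsS hinj hl0 hlI hGE
  have hP : P.IsPrime := hG.prime
  have h2 : Pl P p := hG.pl
  -- integrality
  have hVπ : VP P π := by
    rw [← vl_nonneg h2 hG.ne, hG.vpi]
    positivity
  have hVS : ∀ r ∈ S, VP P r := by
    intro r hr
    obtain ⟨σ, hσI, rfl⟩ := hG.tra r hr
    exact DI.VP.inertia_vp (hG.ine σ hσI) hVπ
  have hδ0 : dl S π ≠ 0 := dl_ne S π
  have hδ'0 : dl SH π ≠ 0 := dl_ne SH π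
  -- the elements which fix `π`
  have hfS : ∀ σ ∈ I, σ π = π → ∀ A : Finset Om, A ⊆ S → σ (dl A π) = dl A π := by
    intro σ hσI hσπ A hA
    rw [dl_map σ A (fun r hr => by rw [hG.ab σ hσI hσπ r (hA hr)]; exact hr), hσπ]
  set u : Om := z * π ^ (SH.card - 1) / dl SH π with hu
  have hFu : Fp I π u := by
    intro σ hσI hσπ
    rw [hu, map_div₀, map_mul, map_pow, hσπ, hz σ hσI hσπ, hfS σ hσI hσπ SH hSH]
  -- (1) the sum over `SH`
  choose! t ht using fun r (hr : r ∈ SH) => hσ r hr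
  have htu : ∀ r ∈ SH, t r u = z * r ^ (SH.card - 1) / dl SH r := by
    intro r hr
    obtain ⟨-, h3, h4, h5⟩ := ht r hr
    rw [hu, map_div₀, map_mul, map_pow, h3, h4, dl_map (t r) SH h5, h3]
  have hsum1 : ∑ r ∈ SH, t r u = z := by
    have h3 := (pol P hP SH 0 (fun r hr => hVS r (hSH hr)) (fun i => by
      rw [Polynomial.coeff_zero]; exact DI.VP.zero)).2.2 ⟨π, hπ⟩
    rw [Finset.sum_congr rfl htu]
    have e : ∀ r ∈ SH, z * r ^ (SH.card - 1) / dl SH r = z * (r ^ (SH.card - 1) / dl SH r) :=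
      fun r _ => mul_div_assoc _ _ _
    rw [Finset.sum_congr rfl e, ← Finset.mul_sum, h3, mul_one]
  -- (2) the sum over `S`
  choose! w hw using fun a (ha : a ∈ S) => hG.tra a ha
  have hsum2 : ∑ i ∈ T, s i z = ∑ a ∈ S, w a u := by
    have h3 : ∑ i ∈ T, s i z = ∑ x ∈ T ×ˢ SH, s x.1 (t x.2 u) := by
      rw [Finset.sum_product]
      refine Finset.sum_congr rfl fun i _ => ?_
      conv_lhs => rw [← hsum1]
      rw [map_sum]
    rw [h3]
    refine Finset.sum_bij (fun x _ => s x.1 x.2) ?_ ?_ ?_ ?_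
    · intro x hx
      obtain ⟨hx1, hx2⟩ := Finset.mem_product.1 hx
      exact hG.stab _ (hsI _ hx1) _ (hSH hx2)
    · intro x hx y hy hxy
      obtain ⟨hx1, hx2⟩ := Finset.mem_product.1 hx
      obtain ⟨hy1, hy2⟩ := Finset.mem_product.1 hy
      have h4 : x.1 = y.1 := hinj _ hx1 _ hy1 _ hx2 _ hy2 hxy
      have h5 : x.2 = y.2 := by
        have h6 : s x.1 x.2 = s x.1 y.2 := by
          rw [h4]
          rw [h4] at hxy
          exact hxy
        exact (s x.1).injective h6
      exact Prod.ext h4 h5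
    · intro a ha
      obtain ⟨i, hi, r, hr, hir⟩ := hsS a ha
      exact ⟨(i, r), Finset.mem_product.2 ⟨hi, hr⟩, hir⟩
    · intro x hx
      obtain ⟨hx1, hx2⟩ := Finset.mem_product.1 hx
      have haS : s x.1 x.2 ∈ S := hG.stab _ (hsI _ hx1) _ (hSH hx2)
      obtain ⟨hwI, hwπ⟩ := hw _ haS
      obtain ⟨htI, htπ, -, -⟩ := ht _ hx2
      have h4 : ((w (s x.1 x.2))⁻¹ * (s x.1 * t x.2)) u = u := by
        refine hFu _ (I.mul_mem (I.inv_mem hwI) (I.mul_mem (hsI _ hx1) htI)) ?_
        rw [AlgEquiv.mul_apply, AlgEquiv.mul_apply, htπ]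
        exact (AlgEquiv.symm_apply_eq _).2 hwπ.symm
      rw [AlgEquiv.mul_apply, AlgEquiv.mul_apply] at h4
      exact (AlgEquiv.symm_apply_eq _).1 h4
  -- (3) integrality of `y`
  set y : Om := u * dl S π / l with hy
  have hVy : VP P y := by
    rw [← GE.vp_iff h2]
    have h3 : GE P p (vl P p l - vl P p (dl S π) + vl P p (dl SH π)) (z * π ^ (SH.card - 1)) :=
      GE.mul_right h2 hGE (DI.VP.pow hVπ _)
    have h4 := h3.div h2 hδ'0
    rw [← hu] at h4
    have h5 := (h4.mul h2 (Or.inr (le_refl (vl P p (dl S π))) : GE P p (vl P p (dl S π)) (dl S π))).div h2 hl0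
    rw [← hy] at h5
    exact h5.mono (by linarith)
  have hFy : Fp I π y := by
    intro σ hσI hσπ
    rw [hy, map_div₀, map_mul, hFu σ hσI hσπ, hfS σ hσI hσπ S (Finset.Subset.refl S), hlI σ hσI]
  obtain ⟨F, hF, hFπ⟩ := mono P p e I S π hG y hFy hVy
  have hcn := (cn P I hP hG.ine).2.2.2.2.2.2.2.2.1
  have hwu : ∀ a ∈ S, w a u = l * (F.eval a / dl S a) := by
    intro a ha
    obtain ⟨hwI, hwπ⟩ := hw a ha
    have e1 : u = y * l / dl S π := by
      rw [hy]
      field_simp
    have e2 : w a y = F.eval a := by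
      rw [← hFπ, hcn F hF π (w a) hwI, hwπ]
    rw [e1, map_div₀, map_mul, e2, hlI _ hwI, dl_map (w a) S (hG.stab _ hwI), hwπ]
    ring
  rw [hsum2, Finset.sum_congr rfl hwu, ← Finset.mul_sum]
  refine GE.mul_right h2 (Or.inr le_rfl) ?_
  exact (pol P hP S F hVS (fun i => (hF i).1)).2.1

end Pool.Agent.DL
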