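import Pool.Agent.Lib.DL.Pol
import Pool.Agent.Lib.DL.Cn
import Pool.Agent.Lib.DL.K0
import Pool.Agent.Lib.DL.K2
import Pool.Agent.Lib.DL.Mono
import Pool.Agent.Lib.DL.Der
import Pool.Agent.Lib.DL.Fix
import Pool.Agent.Lib.DL.Cj
import Pool.Agent.Lib.DL.LDr
import Pool.Agent.Lib.DL.Kum
import Pool.Agent.Lib.DL.Dup
import Pool.Agent.Lib.DL.Rt
import Pool.Agent.Lib.DL.TrH
import Pool.Agent.Lib.DL.RCpt
import Pool.Agent.Lib.DL.RG8
import Pool.Agent.Lib.DL.RSq

/-!
# The abstract local theory: complete (author helper89)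
-/

set_option autoImplicit false

namespace Pool.Agent.DL

theorem aOut : Out := asmDL tPol tCn tK0 tK2 tMono tDer tFix tCj tLDr tKum tDup tRt tTrH

theorem aRSq : C_RSq := asmTow2 tRCpt tRG8 tRSq

end Pool.Agent.DL
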