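import Pool.Agent.Lib.DL.Spec
import Pool.Agent.Lib.DN.GL.Pol

/-!
# The local step, abstract part: Pol (author helper71)
-/

set_option autoImplicit false

open scoped Pointwise

noncomputable section

namespace Pool.Agent.DL

open Pool.Agent.MuZ Pool.Agent.FW
open Pool.Agent.DI (VP MP UP TP)

theorem tPol : S_Pol := by
  classical
  intro P hP S F hS hF
  obtain ⟨h1, h2⟩ := Pool.Agent.DN.GL.tPol P hP S F hS hF
  have e : ∀ a : Om, dl S a = ∏ r ∈ S.erase a, (a - r) := fun a => by
    unfold dl
    exact Finset.prod_congr (by ext x; simp only [Finset.mem_erase]) (fun _ _ => rfl)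
  refine ⟨?_, ?_, ?_⟩
  · intro c hc hFc a ha
    obtain ⟨y, hy, hy2⟩ := h1 c hc hFc a ha
    refine ⟨y, hy, ?_⟩
    rw [e a]
    exact hy2
  · have e2 : ∑ a ∈ S, F.eval a / dl S a = ∑ a ∈ S, F.eval a / ∏ r ∈ S.erase a, (a - r) :=
      Finset.sum_congr rfl fun a _ => by rw [e a]
    rw [e2]
    exact h2
  · intro hne
    have hc : 0 < S.card := hne.card_pos
    have hd : (Polynomial.X ^ (S.card - 1) : Polynomial Om).degree < (S.card : WithBot ℕ) := by
      rw [Polynomial.degree_X_pow]
      exact Nat.cast_lt.2 (by omega)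
    have h3 := Lagrange.coeff_eq_sum (s := S) (v := fun r : Om => r) (Function.injective_id.injOn) hd
    rw [Polynomial.coeff_X_pow, if_pos rfl] at h3
    rw [h3]
    refine Finset.sum_congr rfl fun a _ => ?_
    rw [e a, Polynomial.eval_pow, Polynomial.eval_X]

end Pool.Agent.DL
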