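import Pool.Agent.Lib.DL.Va

/-!
# The local step of DR (2 ramified) and DM (p = 3 not split): the abstract part (author helper89)

`P` a prime above `p`, `v = vl P p` the valuation with `v(p) = 1`, `GE P p q x`: `v(x) ≥ q` or `x = 0` (`DL/Va.lean`, proved). `I` is a group of
inertia elements (in the applications `P.inertia ∩ Gal(Om/K)`), `K0` the field of its fixed elements (`Fi I`), whose value group is in
`(1/e) ℤ`; `π` is a number with finite orbit `S = I π` and `v(π) = 1 / (e |S|)`: a uniformizer of `K0(π)`, totally ramified of degree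
`|S|` over `K0`. `Fp I π x`: `x ∈ K0(π)`. `Dr .. x y`: `y` is the derivative of `x` modulo `p ^ q`, for the derivation over `K0` with `π ↦ W`.
There are no levels: all statements are about elements of `Om` and the group `I`.

Tools: `DL/Va.lean` (`vl_mul`, `vl_inv`, `vl_div`, `vl_pow`, `vl_prod`, `vl_add`, `vl_add_lt`, `vl_nonneg`, `vl_pos`, `vl_zero_iff`, `vl_of_up`, `vl_inertia`, `vl_stab`, `vl_eq`, `GE.add`, `GE.sub`,
`GE.neg`, `GE.mul`, `GE.mul_left`, `GE.mul_right`, `GE.sum`, `GE.mono`, `GE.vp_iff`, `GE.tp_iff`, `GE.mp`, `GE.inertia`, `GE.div`; first argument `hG.pl : Pl P p`, instance `have := hG.prime`), `DI/Val.lean` (`VP.add`, `VP.mul`, `UP.mul`, `VP.inertia`, `VP.inertia_vp`, ...).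

RULES: the statement `S_X` is to be proved as `theorem tX : S_X` in the module `Pool/Agent/Lib/DL/X.lean` with the first
lines `import Pool.Agent.Lib.DL.Spec`, `set_option autoImplicit false`, `open scoped Pointwise`, `noncomputable section`,
`namespace Pool.Agent.DL` and the `open` lines of this file. Auxiliary declarations are `private`. Every `C_X` is a statement, `S_X` the
implication from the statements used to `C_X`. All modules are independent. Many are close to modules of `DN/GL` (named in the docstrings): adapt them.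
-/

set_option autoImplicit false

open scoped Pointwise

noncomputable section

namespace Pool.Agent.DL

open Pool.Agent.MuZ Pool.Agent.FW
open Pool.Agent.DI (VP MP UP TP)

/-! ## Definitions -/

/-- `x` is fixed by `I`: `x ∈ K0`. -/
def Fi (I : Subgroup Gal(Om/ℚ)) (x : Om) : Prop := ∀ σ ∈ I, σ x = x

/-- `x` is fixed by the elements of `I` which fix `π`: `x ∈ K0(π)`. -/
def Fp (I : Subgroup Gal(Om/ℚ)) (π x : Om) : Prop := ∀ σ ∈ I, σ π = π → σ x = x

/-- The `P`-integral constants. -/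
def Cn (P : Ideal ZZ) (I : Subgroup Gal(Om/ℚ)) (a : Om) : Prop := VP P a ∧ Fi I a

/-- The polynomials with `P`-integral coefficients in `K0`. -/
def Cf (P : Ideal ZZ) (I : Subgroup Gal(Om/ℚ)) (F : Polynomial Om) : Prop := ∀ i : ℕ, Cn P I (F.coeff i)

open Classical in
/-- The product of the differences `a - r`, `r ∈ S`, `r ≠ a`. -/
def dl (S : Finset Om) (a : Om) : Om := ∏ r ∈ S.erase a, (a - r)

/-- `π` generates a totally ramified extension of `K0`, `S` is its orbit under `I`. -/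
structure Gen (P : Ideal ZZ) (p e : ℕ) (I : Subgroup Gal(Om/ℚ)) (S : Finset Om) (π : Om) : Prop where
  prime : P.IsPrime
  pl : Pl P p
  ine : ∀ σ ∈ I, σ ∈ P.inertia Gal(Om/ℚ)
  pos : 0 < e
  val : ∀ x : Om, Fi I x → x ≠ 0 → ∃ j : ℤ, vl P p x = j / e
  mem : π ∈ S
  stab : ∀ σ ∈ I, ∀ r ∈ S, σ r ∈ S
  tra : ∀ r ∈ S, ∃ σ ∈ I, σ π = r
  ab : ∀ σ ∈ I, σ π = π → ∀ r ∈ S, σ r = r
  ne : π ≠ 0
  vpi : vl P p π = 1 / (e * S.card)

/-- **The derivation modulo `p ^ q`**: `x = F(π)` and `y = F'(π) W` modulo `p ^ q`. -/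
def Dr (P : Ideal ZZ) (p : ℕ) (I : Subgroup Gal(Om/ℚ)) (π : Om) (q : ℚ) (W x y : Om) : Prop :=
  ∃ F : Polynomial Om, Cf P I F ∧ F.eval π = x ∧ GE P p q (y - F.derivative.eval π * W)

/-- The logarithmic derivative of the unit `x` of `K0(π)` is `y` modulo `p ^ q`. -/
def LD (P : Ideal ZZ) (p : ℕ) (I : Subgroup Gal(Om/ℚ)) (π : Om) (q : ℚ) (W x y : Om) : Prop :=
  UP P x ∧ VP P y ∧ Fp I π x ∧ Dr P p I π q W x (x * y)

/-! ## Polynomials -/

open Classical in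
/-- Factor lemma, Euler's lemma, Euler's identity. -/
def C_Pol : Prop :=
  ∀ P : Ideal ZZ, P.IsPrime → ∀ (S : Finset Om) (F : Polynomial Om), (∀ r ∈ S, VP P r) →
    (∀ i, VP P (F.coeff i)) →
    (∀ c : Om, VP P c → (∀ r ∈ S, F.eval r = c) → ∀ a ∈ S, ∃ y : Om, VP P y ∧
      F.derivative.eval a = dl S a * y) ∧
    VP P (∑ a ∈ S, F.eval a / dl S a) ∧
    (S.Nonempty → ∑ a ∈ S, a ^ (S.card - 1) / dl S a = 1)

/-- (50 lines) **Pol.** The first two items are `Pool.Agent.DN.GL.tPol : Pool.Agent.DN.GL.C_Pol` (module `DN/GL/Pol.lean`; unfold `dl`). The third: Lagrange interpolation: the polynomial `X ^ (n - 1)`, `n = card S`, is its own interpolation polynomial at the `n` nodes `S` (`Lagrange.eq_interpolate`), compare the coefficients of `X ^ (n - 1)`: the one of the basis polynomial of `a` is `(dl S a)⁻¹`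
(see how `DN/GL/Pol.lean` proves the second item; perhaps `Lagrange.sum_...`). -/
def S_Pol : Prop := C_Pol

/-- Constants and polynomials. -/
def C_Cn : Prop :=
  ∀ (P : Ideal ZZ) (I : Subgroup Gal(Om/ℚ)), P.IsPrime → (∀ σ ∈ I, σ ∈ P.inertia Gal(Om/ℚ)) →
    (∀ a : ℤ, Cn P I (a : Om)) ∧ (∀ x y : Om, Cn P I x → Cn P I y → Cn P I (x + y) ∧ Cn P I (x - y) ∧
      Cn P I (x * y) ∧ Cn P I (-x)) ∧ (∀ (x : Om) (n : ℕ), Cn P I x → Cn P I (x ^ n)) ∧
    (∀ x : Om, Cn P I x → UP P x → Cn P I x⁻¹) ∧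
    (∀ F G : Polynomial Om, Cf P I F → Cf P I G →
      Cf P I (F + G) ∧ Cf P I (F - G) ∧ Cf P I (F * G) ∧ Cf P I (-F) ∧ Cf P I F.derivative ∧ Cf P I (F.comp G)) ∧
    (∀ x : Om, Cn P I x → Cf P I (Polynomial.C x)) ∧ Cf P I Polynomial.X ∧
    (∀ F : Polynomial Om, Cf P I F → ∀ x : Om, VP P x → VP P (F.eval x)) ∧
    (∀ F : Polynomial Om, Cf P I F → ∀ x : Om, ∀ σ ∈ I, σ (F.eval x) = F.eval (σ x)) ∧
    ∀ (F : Polynomial Om) (π x : Om), Cf P I F → Fp I π x → Fp I π (F.eval x)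

/-- (100 lines) **Cn.** PROOF. Integers: `VP.int`, `map_intCast`. `x⁻¹`: `DI.UP.inv`. Coefficients of sums, products (`Polynomial.coeff_mul`, a finite sum: `VP.sum`, `map_sum`), derivatives (`Polynomial.coeff_derivative`); `Cf` is a subring of the polynomials which contains the constants `C a` and `X`, so `F.comp G = ∑ C (a_i) * G ^ i` (`Polynomial.comp_eq_sum_left`, `Polynomial.sum_def`) is in it.
Evaluation: `Polynomial.eval_eq_sum_range`, `map_sum`, `map_mul`, `map_pow`. Compare `DN/GL/Oa.lean`. -/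
def S_Cn : Prop := C_Cn

/-! ## Valuations of constants -/

/-- The fixed field of the inertia group is unramified. -/
def C_K0 : Prop :=
  ∀ (P : Ideal ZZ) (p : ℕ), P.IsPrime → p.Prime → Pl P p → ∀ x : Om, (∀ τ ∈ P.inertia Gal(Om/ℚ), τ x = x) →
    x ≠ 0 → ∃ j : ℤ, vl P p x = j

/-- (150 lines) **K0.** Port of `DN/GL/K0.lean` (helper63) from `2` to the prime number `p` (`theorem com` of `DL/Va.lean`, `vl_eq`). -/
def S_K0 : Prop := C_K0

/-- A subgroup of index at most two of the inertia group. -/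
def C_K2 : Prop :=
  ∀ (P : Ideal ZZ) (p : ℕ) (G : Subgroup Gal(Om/ℚ)), P.IsPrime → p.Prime → Pl P p →
    (∀ g g' : Gal(Om/ℚ), g ∉ G → g' ∉ G → g * g' ∈ G) →
    ∀ x : Om, Fi (P.inertia Gal(Om/ℚ) ⊓ G) x → x ≠ 0 → ∃ j : ℤ, vl P p x = j / 2

/-- (60 lines) **K2** (from K0). PROOF. If `P.inertia ≤ G` then `x` is fixed by `P.inertia`: K0, `j = 2 j / 2`. Otherwise let `σ ∈ P.inertia`, `σ ∉ G`, `y = x * σ x ≠ 0`, `v(y) = 2 v(x)` (`vl_inertia`). Every `τ ∈ P.inertia` fixes `y`: if `τ ∈ G` then `τ x = x` and `σ⁻¹ τ σ ∈ P.inertia ⊓ G` (`G` has index at most two: if `g = σ⁻¹ τ σ ∉ G` then `σ * g ∈ G`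
as `σ, g ∉ G`, but `σ * g = τ * σ`, so `σ ∈ G`), so `τ (σ x) = σ ((σ⁻¹ τ σ) x) = σ x`. If `τ ∉ G` then `σ⁻¹ τ ∈ G` and `τ σ ∈ G` (products of two elements outside `G`; inverses), so `τ x = σ ((σ⁻¹ τ) x) = σ x` and `τ (σ x) = x`. K0 for `y`. -/
def S_K2 : Prop := C_K0 → C_K2

/-! ## The monogenic structure and the derivation -/

/-- **Mono.** Every `P`-integral element of `K0(π)` is a polynomial in `π` with coefficients in `Cn`. -/
def C_Mono : Prop :=
  ∀ (P : Ideal ZZ) (p e : ℕ) (I : Subgroup Gal(Om/ℚ)) (S : Finset Om) (π : Om), Gen P p e I S π →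
    ∀ x : Om, Fp I π x → VP P x → ∃ F : Polynomial Om, Cf P I F ∧ F.eval π = x

/-- (180 lines) **Mono.** Adapt `DN/GL/MonoK.lean`. PROOF. For `r ∈ S` choose `s_r ∈ I` with `s_r π = r` (`tra`), `x_r = s_r x` (`P`-integral). If `σ ∈ I`, `r ∈ S`: `σ x_r = x_(σ r)`: `s_(σ r)⁻¹ σ s_r ∈ I` fixes `π`, so it fixes `x`. Lagrange: `F` of degree `< n = card S` with `F(r) = x_r` (`Lagrange.interpolate S id`); `s_π x = x` (`Fp`; `s_π π = π`), so `F(π) = x`.
COEFFICIENTS: `σ ∈ I` permutes `S` (`stab`, injective, finite) and the pairs `(r, x_r)`: the interpolation polynomial is mapped to itself (uniqueness): the coefficients `a_j` are fixed by `I`. VALUES: `v(a_j) ∈ (1/e) ℤ` (`val`), `v(π^j) = j/(e n)` (`vpi`): for `j < n` the numbers `v(a_j π^j) = v(a_j) + j/(e n)` (`a_j ≠ 0`) are pairwise different, so `v(x)` is their minimum (`MonoK_val` in `DN/GL/MonoK.lean`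
with `e = 1`); `v(x) ≥ 0` gives `v(a_j) ≥ -j/(e n) > -1/e`, so `v(a_j) ≥ 0`. -/
def S_Mono : Prop := C_Mono

/-- **Der.** The rules. -/
def C_Der : Prop :=
  ∀ (P : Ideal ZZ) (p e : ℕ) (I : Subgroup Gal(Om/ℚ)) (S : Finset Om) (π : Om), Gen P p e I S π →
    ∀ (q : ℚ) (W : Om), 0 ≤ q → q ≤ vl P p (dl S π) → VP P W →
    (∀ x y y' : Om, Dr P p I π q W x y → Dr P p I π q W x y' → GE P p q (y - y')) ∧
    (∀ x y y' : Om, Dr P p I π q W x y → GE P p q (y' - y) → Dr P p I π q W x y') ∧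
    (∀ x y : Om, Dr P p I π q W x y → VP P x ∧ VP P y ∧ Fp I π x) ∧
    (∀ a : Om, Cn P I a → Dr P p I π q W a 0) ∧
    (∀ x y x' y' : Om, Dr P p I π q W x y → Dr P p I π q W x' y' →
      Dr P p I π q W (x + x') (y + y') ∧ Dr P p I π q W (x - x') (y - y') ∧
      Dr P p I π q W (x * x') (x * y' + x' * y)) ∧
    (∀ (x y : Om) (n : ℕ), Dr P p I π q W x y → Dr P p I π q W (x ^ n) (n * x ^ (n - 1) * y)) ∧
    (∀ x y : Om, UP P x → Dr P p I π q W x y → Dr P p I π q W x⁻¹ (-(y / x ^ 2))) ∧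
    (∀ x : Om, Fp I π x → VP P x → ∃ y : Om, Dr P p I π q W x y) ∧
    Dr P p I π q W π W ∧
    (∀ (G : Polynomial Om) (x y : Om), Cf P I G → Dr P p I π q W x y →
      Dr P p I π q W (G.eval x) (G.derivative.eval x * y)) ∧
    ∀ (q' : ℚ) (x y : Om), q' ≤ q → Dr P p I π q W x y → Dr P p I π q' W x y

/-- (200 lines) **Der** (from Pol, Cn, Mono). Adapt `DN/GL/Der0.lean`, `DN/GL/Der.lean`. PROOF. `VP P π` (`vl_nonneg`, `v(π) > 0`), so `VP P r` for `r ∈ S` (`tra`, `VP.inertia_vp`). KEY: `Cf F`, `F(π) = 0` give `GE q (F'(π))`: `F(r) = σ (F(π)) = 0` for all `r = σ π ∈ S` (Cn), Pol (1) with `c = 0`, `a = π`: `F'(π) = dl S π * y`, `q ≤ v(dl S π)`.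
(1) `x = F(π) = G(π)`: KEY for `F - G`, times `W`. (2) clear. (3) `F(π)`, `F'(π) W`: Cn; `GE q` with `q ≥ 0` is integral. (4) `F = C a`. (5) `F ± G`, `F * G`. (6) induction from (5). (7) `H(π) = x⁻¹` with `Cf H` (Mono; `Fp x⁻¹` from (3)): `H F - 1` vanishes at `π`: KEY: `H'(π) F(π) + H(π) F'(π)` is `GE q`; multiply by `W x⁻¹`. (8) Mono, `y = F'(π) W`.
(9) `F = X`. (10) `x = F(π)`: `G.comp F`, `Polynomial.derivative_comp`, `Polynomial.eval_comp`; `y = F'(π) W` modulo `p^q`, `G'(x)` integral. (11) `GE.mono`. -/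
def S_Der : Prop := C_Pol → C_Cn → C_Mono → C_Der

/-- **Fix.** If `x` is fixed by elements of `I` which map `π` to the elements of `S'` then its derivative has valuation at least
the minimum of `q` and `v(dl S' π)`. -/
def C_Fix : Prop :=
  ∀ (P : Ideal ZZ) (p e : ℕ) (I : Subgroup Gal(Om/ℚ)) (S : Finset Om) (π : Om), Gen P p e I S π →
    ∀ (q q' : ℚ) (W : Om) (S' : Finset Om), VP P W → π ∈ S' → 0 ≤ q' → q' ≤ q → q' ≤ vl P p (dl S' π) →
      ∀ x y : Om, Dr P p I π q W x y → (∀ r ∈ S', ∃ σ ∈ I, σ π = r ∧ σ x = x) → GE P p q' y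

/-- (50 lines) **Fix** (from Pol, Cn). Adapt `DN/GL/Fix.lean`. PROOF. `x = F(π)`; `r ∈ S'`, `σ π = r`, `σ x = x`: `F(r) = σ (F(π)) = x` (Cn). `VP P r`. Pol (1) with `c = x`, the set `S'`, `a = π`: `F'(π) = dl S' π * y1`; `dl S' π ≠ 0`. So `GE q' (F'(π) W)`, and `y - F'(π) W` is `GE q`. -/
def S_Fix : Prop := C_Pol → C_Cn → C_Fix

/-- **Cj.** Elements `τ` of the inertia group which normalise `I`: if `τ π` has the derivative `r τ(W)` then the derivation is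
semilinear for `τ`. -/
def C_Cj : Prop :=
  ∀ (P : Ideal ZZ) (p e : ℕ) (I : Subgroup Gal(Om/ℚ)) (S : Finset Om) (π : Om), Gen P p e I S π →
    ∀ (q : ℚ) (W r : Om) (τ : Gal(Om/ℚ)), 0 ≤ q → q ≤ vl P p (dl S π) → VP P W → VP P r →
      τ ∈ P.inertia Gal(Om/ℚ) → (∀ σ ∈ I, τ⁻¹ * σ * τ ∈ I) → Dr P p I π q W (τ π) (r * τ W) →
      (∀ x y : Om, Dr P p I π q W x y → Dr P p I π q W (τ x) (r * τ y)) ∧
      ∀ x y : Om, LD P p I π q W x y → LD P p I π q W (τ x) (r * τ y)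

/-- (90 lines) **Cj** (from Cn, Der). PROOF. `x = F(π)`, `G = F.map τ` (coefficients `τ a`): `Cf G`: `VP (τ a)` (`VP.inertia_vp`), `σ (τ a) = τ ((τ⁻¹ σ τ) a) = τ a`. `τ x = G(τ π)`. Der (10) for `G` and `Dr (τ π) (r * τ W)`: `Dr (τ x) (G'(τ π) * (r * τ W))`, and `G'(τ π) * τ W = τ (F'(π) W)` (`Polynomial.derivative_map`, `Polynomial.eval_map`, `Polynomial.hom_eval₂`).
`y - F'(π) W` is `GE q`, so is its image under `τ` (`GE.inertia`): Der (2). `LD`: `UP (τ x)`, `VP (r τ y)`; `Fp (τ x)`: Der (3); `τ (x y) = τ x τ y`. -/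
def S_Cj : Prop := C_Cn → C_Der → C_Cj

/-- The rules for logarithmic derivatives. -/
def C_LDr : Prop :=
  ∀ (P : Ideal ZZ) (p e : ℕ) (I : Subgroup Gal(Om/ℚ)) (S : Finset Om) (π : Om), Gen P p e I S π →
    ∀ (q : ℚ) (W : Om), 0 ≤ q → q ≤ vl P p (dl S π) → VP P W →
    (∀ a : Om, Cn P I a → UP P a → LD P p I π q W a 0) ∧
    (∀ x y x' y' : Om, LD P p I π q W x y → LD P p I π q W x' y' → LD P p I π q W (x * x') (y + y')) ∧
    (∀ x y : Om, LD P p I π q W x y → LD P p I π q W x⁻¹ (-y)) ∧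
    (∀ (x y : Om) (j : ℕ), LD P p I π q W x y → LD P p I π q W (x ^ j) (j * y)) ∧
    (∀ (ι : Type) (T : Finset ι) (x y : ι → Om), (∀ i ∈ T, LD P p I π q W (x i) (y i)) →
      LD P p I π q W (∏ i ∈ T, x i) (∑ i ∈ T, y i)) ∧
    (∀ x y : Om, UP P x → Dr P p I π q W x y → LD P p I π q W x (y / x)) ∧
    ∀ x y y' : Om, LD P p I π q W x y → LD P p I π q W x y' → GE P p q (y - y')

/-- (80 lines) **LDr** (from Cn, Der). Adapt `DN/GL/LDr.lean` (without the levels). -/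
def S_LDr : Prop := C_Cn → C_Der → C_LDr

/-- **Kum.** Translation: the derivative of `X(z + u)` from the Kummer relation (`b2, b4, b6, b8` the invariants of the curve `W² = 4 X³ + b2 X² + 2 b4 X + b6`). -/
def C_Kum : Prop :=
  ∀ (P : Ideal ZZ) (p e : ℕ) (I : Subgroup Gal(Om/ℚ)) (S : Finset Om) (π : Om), Gen P p e I S π →
    ∀ (q : ℚ) (W0 : Om), 0 ≤ q → q ≤ vl P p (dl S π) → VP P W0 →
    ∀ X X' U W W' V κ b2 b4 b6 b8 : Om, Cn P I U → Cn P I V → Cn P I κ → Cn P I b2 → Cn P I b4 → Cn P I b6 →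
      Cn P I b8 → UP P V → UP P W → Fp I π X' → VP P X' → VP P W' → Dr P p I π q W0 X (κ * W) →
      (X - U) ^ 2 * X' ^ 2 - (2 * X * U * (X + U) + b2 * (X * U) + b4 * (X + U) + b6) * X' +
        (X ^ 2 * U ^ 2 - b4 * (X * U) - b6 * (X + U) - b8) = 0 →
      2 * (X - U) ^ 2 * X' - (2 * X * U * (X + U) + b2 * (X * U) + b4 * (X + U) + b6) = -(W * V) →
      (2 * (X - U) * X' ^ 2 - (4 * X * U + 2 * U ^ 2 + b2 * U + b4) * X' +
        (2 * X * U ^ 2 - b4 * U - b6)) * W = W * V * W' →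
      Dr P p I π q W0 X' (κ * W')

/-- (90 lines) **Kum** (from Cn, Der). Adapt the second half of `DN/GL/Tru.lean` (helper; `a²`, `ac`, `c²`, `0` are now `b2, b4, b6, b8`). PROOF. Der (8): `y` with `Dr X' y`. By the rules the left side of the first relation has the derivative `2 (X - U) κ W X'² + 2 (X - U)² X' y - (4XU + 2U² + b2 U + b4) κ W X' - A y + (2XU² - b4 U - b6) κ W`, `A` the coefficient of `X'`, and it is `0`: so this is `GE q`
(Der (1), and (4) for `0`). By the other relations it is `κ W V W' - W V y`. `W V` is a unit: `GE q (κ W' - y)`; Der (2). -/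
def S_Kum : Prop := C_Cn → C_Der → C_Kum

/-- **Dup.** Duplication: the derivative of `X(2 z)`. -/
def C_Dup : Prop :=
  ∀ (P : Ideal ZZ) (p e : ℕ) (I : Subgroup Gal(Om/ℚ)) (S : Finset Om) (π : Om), Gen P p e I S π →
    ∀ (q : ℚ) (W0 : Om), 0 ≤ q → q ≤ vl P p (dl S π) → VP P W0 →
    ∀ X W κ b2 b4 b6 b8 X' W' : Om, Cn P I κ → Cn P I b2 → Cn P I b4 → Cn P I b6 →
      Cn P I b8 → UP P W → VP P W' → Dr P p I π q W0 X (κ * W) →
      W ^ 2 = 4 * X ^ 3 + b2 * X ^ 2 + 2 * b4 * X + b6 →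
      X' * W ^ 2 = X ^ 4 - b4 * X ^ 2 - 2 * b6 * X - b8 →
      (4 * X ^ 3 - 2 * b4 * X - 2 * b6) * W ^ 2 - (X ^ 4 - b4 * X ^ 2 - 2 * b6 * X - b8) * (12 * X ^ 2 + 2 * b2 * X + 2 * b4) =
        2 * W' * W ^ 3 →
      Dr P p I π q W0 X' (2 * κ * W')

/-- (60 lines) **Dup** (from Cn, Der). PROOF. `X' = φ(X) ψ(X)⁻¹`, `φ = X⁴ - b4 X² - 2 b6 X - b8`, `ψ = 4X³ + b2 X² + 2 b4 X + b6 = W²` a unit. By Der (10) (or step by step) `Dr (φ(X)) (φ'(X) κ W)`, `Dr (W²) (ψ'(X) κ W)`, Der (7): `Dr (W²)⁻¹ (-(ψ'(X) κ W / W⁴))`, product: the derivative of `X'` is `κ W (φ' ψ - φ ψ')/W⁴ = κ W (2 W' W³)/W⁴ = 2 κ W'`. -/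
def S_Dup : Prop := C_Cn → C_Der → C_Dup

/-- **Rt.** The logarithmic derivative of a unit which is, up to a factor `c`, a `p`-th power modulo `p ^ M`. -/
def C_Rt : Prop :=
  ∀ (P : Ideal ZZ) (p e : ℕ) (I : Subgroup Gal(Om/ℚ)) (S : Finset Om) (π : Om), Gen P p e I S π →
    ∀ (q : ℚ) (W : Om), 0 ≤ q → q ≤ vl P p (dl S π) → VP P W → p.Prime →
    ∀ (w Y c yc u yu s : Om) (D : ℚ) (M : ℕ), LD P p I π q W w Y → c ≠ 0 → VP P c → Dr P p I π q W c yc →
      Dr P p I π q W u yu → Fp I π s → VP P s → GE P p D yu → w * c = u ^ p + (p : Om) ^ M * s →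
      vl P p c < M → GE P p (min (1 + D - vl P p c / p) (min (M - vl P p c) (q - vl P p c))) (Y + yc / c)

/-- (100 lines) **Rt** (from Cn, Der). PROOF. `Der (8)`: `Dr s ys`. The two sides of the equation have the derivatives `w Y c + w yc` and `p u^(p-1) yu + p^M ys` (Der (4) for the constant `p^M`, (5), (6)), so `w (c Y + yc) - p u^(p-1) yu - p^M ys` is `GE q` (Der (1)). `v(w c) = v(c) < M ≤ v(p^M s)`: `v(u^p) = v(c)` (`vl_add_lt` for `u^p = w c - p^M s`), `v(u) = v(c)/p`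
(`u ≠ 0`). So `c Y + yc` is `GE` of the minimum of `1 + (p - 1) v(c)/p + D`, `M`, `q` (`w` is a unit); divide by `c` (`GE.div`). -/
def S_Rt : Prop := C_Cn → C_Der → C_Rt

/-! ## Traces -/

/-- **TrH.** The trace from the field fixed by the group with orbit `SH` to `K0`. -/
def C_TrH : Prop :=
  ∀ (P : Ideal ZZ) (p e : ℕ) (I : Subgroup Gal(Om/ℚ)) (S : Finset Om) (π : Om), Gen P p e I S π →
    ∀ (SH : Finset Om) (z l : Om) (ι : Type) (T : Finset ι) (s : ι → Gal(Om/ℚ)), π ∈ SH → SH ⊆ S → Fp I π z →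
      (∀ r ∈ SH, ∃ σ ∈ I, σ π = r ∧ σ z = z ∧ ∀ r' ∈ SH, σ r' ∈ SH) → (∀ i ∈ T, s i ∈ I) →
      (∀ r ∈ S, ∃ i ∈ T, ∃ r' ∈ SH, s i r' = r) →
      (∀ i ∈ T, ∀ i' ∈ T, ∀ r ∈ SH, ∀ r' ∈ SH, s i r = s i' r' → i = i') →
      l ≠ 0 → Fi I l → GE P p (vl P p l - vl P p (dl S π) + vl P p (dl SH π)) z →
      GE P p (vl P p l) (∑ i ∈ T, s i z)

/-- (160 lines) **TrH** (from Pol, Cn, Mono). PROOF. `m = card SH`, `δ = dl S π`, `δ' = dl SH π` (not `0`), `u = z π^(m-1)/δ'`: `Fp I π u` (an element of `I` which fixes `π` fixes all `r ∈ S`: `ab`). (1) `∑_(r ∈ SH) u_r = z`, where `u_r = σ_r u` for the `σ_r` of the hypothesis: `σ_r π = r`, `σ_r z = z`, `σ_r` permutes `SH`, so `σ_r δ' = dl SH r` (`r' ↦ σ_r r'` is a bijection of `SH.erase π` to `SH.erase r`) and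
`∑ z r^(m-1)/dl SH r = z` (Pol (3)). (2) `∑_(i ∈ T) s_i z = ∑_(i, r) s_i σ_r u`, and `(i, r) ↦ s_i r = s_i σ_r π` is a bijection `T × SH → S` (hypotheses; `s_i` is injective). For `a ∈ S` let `t_a ∈ I` with `t_a π = a`: `t_a u` depends only on `a` (`Fp`), so the sum is `∑_(a ∈ S) t_a u`. (3) `y = u δ/l` is `P`-integral: `v(z) - v(δ') + v(δ) - v(l) ≥ 0`, `π^(m-1)` integral (or `z = 0`: trivial),
`Fp y`, so `y = F(π)` (Mono), `t_a y = F(a)`, `t_a δ = dl S a`, `t_a l = l`: `∑_a t_a u = l ∑_a F(a)/dl S a ∈ l V_P` (Pol (2)); `GE.tp_iff` or `GE.mul_right`. -/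
def S_TrH : Prop := C_Pol → C_Cn → C_Mono → C_TrH

/-- The composition. -/
structure Out : Prop where
  Pol : C_Pol
  Cn : C_Cn
  K0 : C_K0
  K2 : C_K2
  Mono : C_Mono
  Der : C_Der
  Fix : C_Fix
  Cj : C_Cj
  LDr : C_LDr
  Kum : C_Kum
  Dup : C_Dup
  Rt : C_Rt
  TrH : C_TrH

theorem asmDL (pol : S_Pol) (cn : S_Cn) (k0 : S_K0) (k2 : S_K2) (mono : S_Mono) (der : S_Der) (fix : S_Fix)
    (cj : S_Cj) (ldr : S_LDr) (kum : S_Kum) (dup : S_Dup) (rt : S_Rt) (trh : S_TrH) : Out :=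
  have Der := der pol cn mono
  ⟨pol, cn, k0, k2 k0, mono, Der, fix pol cn, cj cn Der, ldr cn Der, kum cn Der, dup cn Der, rt cn Der, trh pol cn mono⟩

end Pool.Agent.DL
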