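import Pool.Agent.Lib.DN.GL.Tam

/-!
# The local step for `p = 2`, `2` ramified in `K`: the abstract tower (author helper89)

As `DN/GL/Tam.lean`, but the inertia elements which fix `L` act on the roots of unity of 2-power order at least with all exponents
congruent to `1` modulo `8` (not with all odd exponents), and nothing is assumed on the valuations of `L`: the class of `xx ζ` is possible.

RULES: the statement `S_X` is to be proved as `theorem tX : S_X` in the module `Pool/Agent/Lib/DL/X.lean` with the first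
lines `import Pool.Agent.Lib.DL.Tow2`, `set_option autoImplicit false`, `open scoped Pointwise`, `noncomputable section`,
`namespace Pool.Agent.DL` and the `open` lines of this file. Auxiliary declarations are `private`. All modules are independent. They are adaptations of the modules
`DN/GL/TCpt.lean`, `DN/GL/TG8a.lean`, `DN/GL/Sq.lean`.
-/

set_option autoImplicit false

open scoped Pointwise

noncomputable section

namespace Pool.Agent.DL

open Pool.Agent.MuZ Pool.Agent.FW Pool.Agent.DI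
open Pool.Agent.DI.GL (Fx StP xx mem_of_Fx Fx.mul Fx.inv Fx.one)

/-- The facts on the fields `L`, `L_N` which are used. -/
structure SitR (L : IntermediateField ℚ Om) (LN : ℕ → IntermediateField ℚ Om) (P : Ideal ZZ) : Prop where
  prime : P.IsPrime
  two : MP P 2
  iul : ∀ m u : ℕ, u % 8 = 1 → ∃ ι ∈ P.inertia Gal(Om/ℚ), Fx L ι ∧ ∀ z : Om, z ^ 2 ^ m = 1 → ι z = z ^ u
  lze : ∀ τ : Gal(Om/ℚ), Fx L τ → Fx (LN 0) τ
  lnx : ∀ (N : ℕ) (ζ : Om), 1 ≤ N → IsPrimitiveRoot ζ (2 ^ N) → ∀ τ : Gal(Om/ℚ),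
    Fx (LN N) τ ↔ Fx L τ ∧ (τ ζ = ζ ∨ τ ζ = ζ⁻¹)

/-- Compactness. -/
def C_RCpt : Prop :=
  ∀ (L : IntermediateField ℚ Om) (LN : ℕ → IntermediateField ℚ Om) (P : Ideal ZZ),
    SitR L LN P → ∀ r : Om, (∀ d : Gal(Om/ℚ), DN.GL.DD LN P d → d r = r) →
    ∃ m0 : ℕ, ∀ m : ℕ, m0 ≤ m → ∀ d : Gal(Om/ℚ), DN.GL.DL L P m d → d r = r

/-- (70 lines) **RCpt.** The proof of `DN/GL/TCpt.lean` (it uses only `prime`, `two`, `lze`, `lnx`). -/
def S_RCpt : Prop := C_RCpt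

/-- The Kummer character of `w` on `D_P ∩ Gal(Om/L_N)` is that of `± 1` or `± xx ζ`. -/
def C_RG8 : Prop :=
  ∀ (L : IntermediateField ℚ Om) (LN : ℕ → IntermediateField ℚ Om) (P : Ideal ZZ),
    SitR L LN P → ∀ N : ℕ, 3 ≤ N →
    ∀ ζ : Om, IsPrimitiveRoot ζ (2 ^ N) → ∀ w ∈ LN N, w ≠ 0 → ∀ m : ℕ,
    (∀ d : Gal(Om/ℚ), DN.GL.DL L P m d → kap w d = 0) →
    ∃ (e : Om) (b : ℕ), (e = 1 ∨ e = -1) ∧ (b = 0 ∨ b = 1) ∧
      ∀ r : Om, r ^ 2 = w * (e * xx ζ ^ b) → ∀ d : Gal(Om/ℚ), StP P d → Fx (LN N) d → d r = r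

/-- (300 lines, most of it copied) **RG8.** Adapt `DN/GL/TG8a.lean` (`2 ≤ N` is now `3 ≤ N`, `SitT` is now `SitR`). The inertia element `d2` (`u = 1 + 2^N`, `u % 8 = 1` since `N ≥ 3`) is as there. The element `d1` (`ζ ↦ ζ⁻¹`) is not in the inertia group. Let `G` be the set of the `d` with `StP P d`, `Fx (LN N) d` (so `d ζ = ζ^(±1)` by `lnx`). CASE 1: all `d ∈ G` satisfy `d ζ = ζ`: take `e = 1`, choose `b` with
`kap w d2 + b = 0` as there; `TG8a_key` (copy it) for `w' = w * xx ζ ^ b` proves the claim. CASE 2: there is `g ∈ G` with `g ζ = ζ⁻¹`, `ζ ≠ ζ⁻¹`. `g z0 = z0 ^ c` (`z0` primitive of order `2^m`, `ζ` a power of `z0`), `ζ^c = ζ⁻¹`: `c ≡ -1` modulo `2^N`, so `-c ≡ 1` modulo `2^N`: choose a natural number `c'` with `c' ≡ -c` modulo `2^m`, `c' ≡ 1` modulo `2^N`, and `t` with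
`c' ≡ (1 + 2^N)^t` modulo `2^m` (`tPw` as in `TG8a_key`). `d1 := (d2 ^ t)⁻¹ * g` satisfies `StP P d1`, `Fx (LN N) d1`, `d1 z0 = z0⁻¹`: indeed `d2^t z0⁻¹ = z0^(-(1 + 2^N)^t) = z0^c = g z0`. Hence `d1 z = z⁻¹` for all `z` with `z^(2^m) = 1`. With this `d1` the rest of the proof of `TG8a` (after 'the two inertia elements': `hd1'`, `hs1`, `hd1ζ`, `hf1`, ..) goes through. -/
def S_RG8 : Prop := C_RG8

/-- **The square root.** If the Kummer character of the unit `w` of `L_N` vanishes on `D_P ∩ Gal(Om/L_∞(i))` then `± w xx(ζ)^b`, `b = 0` or `1`,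
is a square modulo every power of `2`; and `b = 0` if no element of `L_N` has half the valuation of `xx ζ`. -/
def C_RSq : Prop :=
  ∀ (L : IntermediateField ℚ Om) (LN : ℕ → IntermediateField ℚ Om) (P : Ideal ZZ),
    SitR L LN P → ∀ N : ℕ, 3 ≤ N → ∀ ζ : Om, IsPrimitiveRoot ζ (2 ^ N) →
    ∀ w ∈ LN N, UP P w → (∀ d : Gal(Om/ℚ), DN.GL.DD LN P d → kap w d = 0) →
    ∃ (e : Om) (b : ℕ), (e = 1 ∨ e = -1) ∧ (b = 0 ∨ b = 1) ∧ (b = 1 → ∃ ρ ∈ LN N, UP P (ρ ^ 2 / xx ζ)) ∧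
      ∀ M : ℕ, ∃ r ∈ LN N, VP P r ∧ TP P (2 ^ M) (w * (e * xx ζ ^ b) - r ^ 2)

/-- (110 lines) **RSq** (from RCpt, RG8). Adapt `DN/GL/Sq.lean`: `r² = w (e xx^b)`, `r' ∈ LN N` with `r - r' ∈ 2^M V` (`tApp`): `r² - r'² = 2^M y (2 r - 2^M y)` (in both cases `b = 0, 1`; `VP P r`, so `VP P r'`). `b = 1`: the computation at the end of `Sq.lean` shows `UP P (r'² / xx ζ)` for the `r'` with `M = 2` (there it contradicts `TEv`; here it is the third claim). -/
def S_RSq : Prop := C_RCpt → C_RG8 → C_RSq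

theorem asmTow2 (a : S_RCpt) (b : S_RG8) (c : S_RSq) : C_RSq := c a b

end Pool.Agent.DL
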