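import Pool.Agent.Lib.DT.GL.Spec

/-!
# The local step for `p = 3`, `3` not split in `K` (DM, DU): the abstract tower (author helper89)

As `DT/GL/Spec.lean`, but the inertia elements which fix `L` act on the roots of unity of 3-power order at least with all exponents
congruent to `1` modulo `3`, and nothing is assumed on the valuations of `L`. RESULT: if the Kummer character of the unit `w` of `L_N` vanishes on
`D_P ∩ Gal(Om/L_∞)` then `w ζ^j` is a cube modulo every power of `3`, for some `j` (the class of `ζ` cannot be avoided).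

RULES: the statement `S_X` is to be proved as `theorem tX : S_X` in the module `Pool/Agent/Lib/DL/X.lean` with the first
lines `import Pool.Agent.Lib.DL.Tow3`, `set_option autoImplicit false`, `open scoped Pointwise`, `noncomputable section`,
`namespace Pool.Agent.DL` and the `open` lines of this file. Auxiliary declarations are `private`. All modules are independent. They are adaptations of the modules
`DT/GL/Cpt.lean`, `DT/GL/G8a.lean`, `DT/GL/G8b.lean`; `DT.GL.tStb`, `tArch`, `tIu`, `tPw`, `tKap`, `tApp` are proved (modules `DT/GL/Stb.lean`, ..).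
-/

set_option autoImplicit false

open scoped Pointwise

noncomputable section

namespace Pool.Agent.DL

open Pool.Agent.MuZ Pool.Agent.FW
open Pool.Agent.DI (VP MP UP TP)
open Pool.Agent.DT (kap cbr zet)
open Pool.Agent.DI.GL (Fx StP mem_of_Fx Fx.mul Fx.inv Fx.one)

/-- The facts on the fields `L`, `L_N` which are used. -/
structure SitQ (L : IntermediateField ℚ Om) (LN : ℕ → IntermediateField ℚ Om) (P : Ideal ZZ) : Prop where
  prime : P.IsPrime
  three : MP P 3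
  mu : zet 3 ∈ L
  iul : ∀ m u : ℕ, u % 3 = 1 → ∃ ι ∈ P.inertia Gal(Om/ℚ), Fx L ι ∧ ∀ z : Om, z ^ 3 ^ m = 1 → ι z = z ^ u
  lnx : ∀ (N : ℕ) (ζ : Om), 1 ≤ N → IsPrimitiveRoot ζ (3 ^ N) → ∀ τ : Gal(Om/ℚ),
    Fx (LN N) τ ↔ Fx L τ ∧ τ ζ = ζ

/-- Compactness. -/
def C_QCpt : Prop :=
  ∀ (L : IntermediateField ℚ Om) (LN : ℕ → IntermediateField ℚ Om) (P : Ideal ZZ),
    SitQ L LN P → ∀ r : Om, (∀ d : Gal(Om/ℚ), DT.GL.DD LN P d → d r = r) →
    ∃ m0 : ℕ, ∀ m : ℕ, m0 ≤ m → ∀ d : Gal(Om/ℚ), DT.GL.DL L P m d → d r = r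

/-- (75 lines) **QCpt.** The proof of `DT/GL/Cpt.lean` (it uses only `prime`, `three`, `lnx`; `DT.GL.tStb`). -/
def S_QCpt : Prop := C_QCpt

/-- The Kummer character of `w` on `D_P ∩ Gal(Om/L_N)` is that of a power of `ζ`. -/
def C_QG8a : Prop :=
  ∀ (L : IntermediateField ℚ Om) (LN : ℕ → IntermediateField ℚ Om) (P : Ideal ZZ),
    SitQ L LN P → ∀ N : ℕ, 1 ≤ N → ∀ ζ : Om, IsPrimitiveRoot ζ (3 ^ N) → ∀ w ∈ LN N, w ≠ 0 → ∀ m : ℕ,
    (∀ d : Gal(Om/ℚ), DT.GL.DL L P m d → kap w d = 0) →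
    ∃ j : ℕ, ∀ r : Om, r ^ 3 = w * ζ ^ j → ∀ d : Gal(Om/ℚ), StP P d → Fx (LN N) d → d r = r

/-- (200 lines, copied) **QG8a.** The proof of `DT/GL/G8a.lean`; the inertia element `d2` (`u = 1 + 3^N`, `u % 3 = 1`) is now from `SitQ.iul`: it fixes `L` directly (there: `Sit.inr`). -/
def S_QG8a : Prop := C_QG8a

/-- **The cube root.** -/
def C_QCub : Prop :=
  ∀ (L : IntermediateField ℚ Om) (LN : ℕ → IntermediateField ℚ Om) (P : Ideal ZZ),
    SitQ L LN P → ∀ N : ℕ, 1 ≤ N → ∀ ζ : Om, IsPrimitiveRoot ζ (3 ^ N) →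
    ∀ w ∈ LN N, UP P w → (∀ d : Gal(Om/ℚ), DT.GL.DD LN P d → kap w d = 0) →
    ∃ j : ℕ, ∀ M : ℕ, ∃ r ∈ LN N, VP P r ∧ TP P (3 ^ M) (w * ζ ^ j - r ^ 3)

/-- (110 lines) **QCub** (from QCpt, QG8a). PROOF. Let `r0 ^ 3 = w` (`IsAlgClosed.exists_pow_nat_eq`). For `DD LN P d`: `d` fixes `LN N ∋ w` and `L ∋ zet 3` (`SitQ.lnx` for `N`, a primitive root; `SitQ.mu`), so `kap w d = 0` gives `d r0 = r0` (`DT.GL.tKap`, first part). QCpt: `m0`; for `DL L P m d`, `m = max m0 N`: `d r0 = r0`, and `d w = w`, `d (zet 3) = zet 3`, so `kap w d = 0`.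
QG8a with this `m`: `j`. `r` with `r ^ 3 = w * ζ ^ j`; `ζ`, `zet 3 ∈ LN N` (`mem_of_Fx`, `SitQ.lnx`), so `r ^ 3 ∈ LN N`; `w ζ ^ j` is a unit, `VP P r` (`DI.VP.of_pow`). `DT.GL.tApp DT.GL.tStb DT.GL.tArch` with `F = LN N`, `M`: `r' ∈ LN N`, `r - r' = 3 ^ M y`, `VP P y`, so `VP P r'` and `r ^ 3 - r' ^ 3 = 3 ^ M (y (r ^ 2 + r r' + r' ^ 2))`. -/
def S_QCub : Prop := C_QCpt → C_QG8a → C_QCub

theorem asmTow3 (a : S_QCpt) (b : S_QG8a) (c : S_QCub) : C_QCub := c a b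

end Pool.Agent.DL
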